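import Pool.Agent.N469.CO.Stm
import Pool.Agent.W661.Nrm15

/-! # Project CONE (MP_b9f29c_an), part BD (helper492): block-diagonal matrices -/

set_option autoImplicit false

open scoped CStarAlgebra ComplexOrder InnerProductSpace

namespace Pool.Agent.N469.CO

namespace BDAux

open Pool.Agent.W661.Nrm

section

variable {K k N : ℕ}

/-- the tuples -/
abbrev Tup (K k : ℕ) : Type := ℂ × (Fin K → CStarMatrix (Fin k) (Fin k) ℂ)

/-- the entries of a block-diagonal matrix -/
noncomputable def blk (Z : Tup K k) : Option (Fin K × Fin k) → Option (Fin K × Fin k) → ℂ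
  | none, none => Z.1
  | some x, some y => if x.1 = y.1 then Z.2 x.1 x.2 y.2 else 0
  | none, some _ => 0
  | some _, none => 0

theorem blk_mul (Z W : Tup K k) (p q : Option (Fin K × Fin k)) :
    ∑ r, blk Z p r * blk W r q = blk (Z * W) p q := by
  rw [Fintype.sum_option]
  rcases p with _ | ⟨i, a⟩ <;> rcases q with _ | ⟨l, b⟩
  · simp [blk]
  · simp [blk]
  · simp [blk]
  · simp only [blk, mul_zero, zero_add]
    rw [Fintype.sum_prod_type, Finset.sum_eq_single i]
    · by_cases h : i = l
      · subst h
        simp only [if_true]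
        rw [Prod.snd_mul, Pi.mul_apply, CStarMatrix.mul_apply]
      · simp [h]
    · intro j _ hj
      refine Finset.sum_eq_zero fun c _ => ?_
      rw [if_neg (Ne.symm hj), zero_mul]
    · intro h
      exact absurd (Finset.mem_univ _) h

variable (e : Fin N ≃ Option (Fin K × Fin k))

/-- block-diagonal matrices, the function -/
noncomputable def PhiF (Z : Tup K k) : CStarMatrix (Fin N) (Fin N) ℂ :=
  CStarMatrix.ofMatrix fun p q => blk Z (e p) (e q)

theorem PhiF_apply (Z : Tup K k) (p q : Fin N) : PhiF e Z p q = blk Z (e p) (e q) := rfl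

/-- block-diagonal matrices -/
noncomputable def Phi : Tup K k →⋆ₙₐ[ℂ] CStarMatrix (Fin N) (Fin N) ℂ where
  toFun Z := PhiF e Z
  map_smul' c Z := by
    ext p q
    rw [CStarMatrix.smul_apply, PhiF_apply, PhiF_apply, MonoidHom.id_apply]
    rcases e p with _ | ⟨i, a⟩ <;> rcases e q with _ | ⟨l, b⟩ <;> simp [blk]
  map_zero' := by
    ext p q
    rw [CStarMatrix.zero_apply, PhiF_apply]
    rcases e p with _ | ⟨i, a⟩ <;> rcases e q with _ | ⟨l, b⟩ <;> simp [blk]
  map_add' Z W := by
    ext p q
    rw [CStarMatrix.add_apply, PhiF_apply, PhiF_apply, PhiF_apply]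
    rcases e p with _ | ⟨i, a⟩ <;> rcases e q with _ | ⟨l, b⟩ <;> simp [blk]
    split_ifs <;> simp
  map_mul' Z W := by
    ext p q
    rw [CStarMatrix.mul_apply]
    simp only [PhiF_apply]
    rw [← blk_mul, ← Equiv.sum_comp e]
  map_star' Z := by
    ext p q
    rw [CStarMatrix.star_apply, PhiF_apply, PhiF_apply]
    rcases e p with _ | ⟨i, a⟩ <;> rcases e q with _ | ⟨l, b⟩ <;>
      simp only [blk, star_zero, Prod.fst_star, Prod.snd_star, Pi.star_apply]
    by_cases h : i = l
    · subst h
      rw [if_pos rfl, if_pos rfl, CStarMatrix.star_apply]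
    · rw [if_neg h, if_neg (Ne.symm h), star_zero]

theorem Phi_apply (Z : Tup K k) (p q : Fin N) : Phi e Z p q = blk Z (e p) (e q) := rfl

/-- the block `j` -/
noncomputable def del (j : Fin K) :
    CStarMatrix (Fin k) (Fin k) ℂ →⋆ₙₐ[ℂ] CStarMatrix (Fin N) (Fin N) ℂ where
  toFun T := Phi e (0, Pi.single j T)
  map_smul' c T := by
    rw [MonoidHom.id_apply, ← map_smul]
    congr 1
    ext1
    · simp
    · funext i
      by_cases h : i = j
      · subst h
        simp
      · simp [h]
  map_zero' := by
    rw [Pi.single_zero]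
    exact map_zero (Phi e)
  map_add' S T := by
    rw [← map_add]
    congr 1
    ext1
    · simp
    · funext i
      by_cases h : i = j
      · subst h
        simp
      · simp [h]
  map_mul' S T := by
    rw [← map_mul]
    congr 1
    ext1
    · simp
    · funext i
      by_cases h : i = j
      · subst h
        simp
      · simp [h]
  map_star' T := by
    rw [← map_star]
    congr 1
    ext1
    · simp
    · funext i
      by_cases h : i = j
      · subst h
        simp
      · simp [h]

theorem del_apply (j : Fin K) (T : CStarMatrix (Fin k) (Fin k) ℂ) :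
    del e j T = Phi e (0, Pi.single j T) := rfl

/-- the first entry -/
noncomputable def del0 : ℂ →⋆ₙₐ[ℂ] CStarMatrix (Fin N) (Fin N) ℂ where
  toFun z := Phi e (z, 0)
  map_smul' c z := by
    rw [MonoidHom.id_apply, ← map_smul]
    congr 1
    ext1
    · simp
    · simp
  map_zero' := map_zero (Phi e)
  map_add' S T := by
    rw [← map_add]
    congr 1
    ext1
    · simp
    · simp
  map_mul' S T := by
    rw [← map_mul]
    congr 1
    ext1
    · simp
    · simp
  map_star' T := by
    rw [← map_star]
    congr 1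
    ext1
    · simp
    · simp

theorem del0_apply (z : ℂ) : del0 e z = Phi e (z, 0) := rfl

/-- the compression to the block `j` -/
noncomputable def rh (j : Fin K) (T : CStarMatrix (Fin N) (Fin N) ℂ) :
    CStarMatrix (Fin k) (Fin k) ℂ :=
  CStarMatrix.ofMatrix fun a b => T (e.symm (some (j, a))) (e.symm (some (j, b)))

theorem rh_apply (j : Fin K) (T : CStarMatrix (Fin N) (Fin N) ℂ) (a b : Fin k) :
    rh e j T a b = T (e.symm (some (j, a))) (e.symm (some (j, b))) := rfl

theorem del_entry (j : Fin K) (T : CStarMatrix (Fin k) (Fin k) ℂ) (x y : Fin K × Fin k) :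
    del e j T (e.symm (some x)) (e.symm (some y)) =
      if x.1 = j ∧ y.1 = j then T x.2 y.2 else 0 := by
  rw [del_apply, Phi_apply, Equiv.apply_symm_apply, Equiv.apply_symm_apply]
  simp only [blk]
  by_cases h1 : x.1 = j
  · by_cases h2 : y.1 = j
    · rw [if_pos (h1.trans h2.symm), if_pos ⟨h1, h2⟩, h1, Pi.single_eq_same]
    · rw [if_neg (fun h => h2 (h.symm.trans h1)), if_neg (fun h => h2 h.2)]
  · rw [if_neg (fun h : x.1 = j ∧ y.1 = j => h1 h.1)]
    split_ifs
    · rw [Pi.single_eq_of_ne h1]
      rfl
    · rfl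

theorem del_none_left (j : Fin K) (T : CStarMatrix (Fin k) (Fin k) ℂ) (q : Fin N) :
    del e j T (e.symm none) q = 0 := by
  rw [del_apply, Phi_apply, Equiv.apply_symm_apply]
  rcases e q with _ | y <;> simp [blk]

theorem del_none_right (j : Fin K) (T : CStarMatrix (Fin k) (Fin k) ℂ) (q : Fin N) :
    del e j T q (e.symm none) = 0 := by
  rw [del_apply, Phi_apply, Equiv.apply_symm_apply]
  rcases e q with _ | y <;> simp [blk]

theorem rh_del (j : Fin K) (T : CStarMatrix (Fin k) (Fin k) ℂ) : rh e j (del e j T) = T := by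
  ext a b
  rw [rh_apply, del_entry]
  simp

theorem rh_del_ne {i j : Fin K} (h : i ≠ j) (T : CStarMatrix (Fin k) (Fin k) ℂ) :
    rh e i (del e j T) = 0 := by
  ext a b
  rw [rh_apply, del_entry]
  simp [h]

theorem sum_N (g : Fin N → ℂ) :
    ∑ r, g r = g (e.symm none) + ∑ x : Fin K × Fin k, g (e.symm (some x)) := by
  rw [← Equiv.sum_comp e.symm, Fintype.sum_option]

theorem rh_del_mul (j : Fin K) (S : CStarMatrix (Fin k) (Fin k) ℂ)
    (T : CStarMatrix (Fin N) (Fin N) ℂ) : rh e j (del e j S * T) = S * rh e j T := by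
  ext a b
  rw [rh_apply, CStarMatrix.mul_apply, CStarMatrix.mul_apply, sum_N e, del_none_right, zero_mul,
    zero_add, Fintype.sum_prod_type, Finset.sum_eq_single j]
  · refine Finset.sum_congr rfl fun c _ => ?_
    rw [del_entry, rh_apply]
    simp
  · intro i _ hi
    refine Finset.sum_eq_zero fun c _ => ?_
    rw [del_entry]
    simp [hi]
  · intro h
    exact absurd (Finset.mem_univ _) h

theorem rh_mul_del (j : Fin K) (S : CStarMatrix (Fin k) (Fin k) ℂ)
    (T : CStarMatrix (Fin N) (Fin N) ℂ) : rh e j (T * del e j S) = rh e j T * S := by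
  ext a b
  rw [rh_apply, CStarMatrix.mul_apply, CStarMatrix.mul_apply, sum_N e, del_none_left, mul_zero,
    zero_add, Fintype.sum_prod_type, Finset.sum_eq_single j]
  · refine Finset.sum_congr rfl fun c _ => ?_
    rw [del_entry, rh_apply]
    simp
  · intro i _ hi
    refine Finset.sum_eq_zero fun c _ => ?_
    rw [del_entry]
    simp [hi]
  · intro h
    exact absurd (Finset.mem_univ _) h

theorem rh_star (j : Fin K) (T : CStarMatrix (Fin N) (Fin N) ℂ) :
    rh e j (star T) = star (rh e j T) := by
  ext a b
  rw [rh_apply, CStarMatrix.star_apply, CStarMatrix.star_apply, rh_apply]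

/-- the compression, a linear map -/
noncomputable def rhL (j : Fin K) :
    CStarMatrix (Fin N) (Fin N) ℂ →ₗ[ℂ] CStarMatrix (Fin k) (Fin k) ℂ where
  toFun := rh e j
  map_add' S T := by
    ext a b
    rw [CStarMatrix.add_apply, rh_apply, rh_apply, rh_apply, CStarMatrix.add_apply]
  map_smul' c T := by
    ext a b
    rw [RingHom.id_apply, CStarMatrix.smul_apply, rh_apply, rh_apply, CStarMatrix.smul_apply]

theorem rhL_apply (j : Fin K) (T : CStarMatrix (Fin N) (Fin N) ℂ) : rhL e j T = rh e j T := rfl

theorem rh_nonneg (j : Fin K) (T : CStarMatrix (Fin N) (Fin N) ℂ) (hT : 0 ≤ T) :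
    0 ≤ rh e j T := by
  refine nonneg_of_bil _ ?_ ?_
  · have h1 : star T = T := (IsSelfAdjoint.of_nonneg hT).star_eq
    show star (rh e j T) = rh e j T
    rw [← rh_star, h1]
  · intro z
    set z' : Fin N → ℂ := fun p => match e p with
      | none => 0
      | some x => if x.1 = j then z x.2 else 0 with hz'
    have h0 : z' (e.symm none) = 0 := by
      rw [hz']
      simp
    have h1 : ∀ x : Fin K × Fin k, z' (e.symm (some x)) = if x.1 = j then z x.2 else 0 := by
      intro x
      rw [hz']
      simp
    have h2 : ∀ g : Fin N → ℂ, ∑ p, g p * z' p = ∑ a, g (e.symm (some (j, a))) * z a := by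
      intro g
      rw [sum_N e, h0, mul_zero, zero_add, Fintype.sum_prod_type, Finset.sum_eq_single j]
      · refine Finset.sum_congr rfl fun c _ => ?_
        rw [h1]
        simp
      · intro i _ hi
        refine Finset.sum_eq_zero fun c _ => ?_
        rw [h1]
        simp [hi]
      · intro h
        exact absurd (Finset.mem_univ _) h
    have h3 : ∀ g : Fin N → ℂ, ∑ p, star (z' p) * g p =
        ∑ a, star (z a) * g (e.symm (some (j, a))) := by
      intro g
      rw [sum_N e, h0, star_zero, zero_mul, zero_add, Fintype.sum_prod_type,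
        Finset.sum_eq_single j]
      · refine Finset.sum_congr rfl fun c _ => ?_
        rw [h1]
        simp
      · intro i _ hi
        refine Finset.sum_eq_zero fun c _ => ?_
        rw [h1]
        simp [hi]
      · intro h
        exact absurd (Finset.mem_univ _) h
    have h4 : bil (rh e j T) z z = bil T z' z' := by
      unfold bil
      have h5 : ∀ i, ∑ l, star (z' i) * T i l * z' l = star (z' i) * ∑ l, T i l * z' l := by
        intro i
        rw [Finset.mul_sum]
        exact Finset.sum_congr rfl fun l _ => mul_assoc _ _ _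
      simp only [h5]
      rw [h3]
      refine Finset.sum_congr rfl fun a _ => ?_
      rw [h2, Finset.mul_sum]
      refine Finset.sum_congr rfl fun b _ => ?_
      rw [rh_apply, mul_assoc]
    rw [h4]
    exact bil_nonneg T hT z'

theorem rhL_cp (j : Fin K) (m : ℕ)
    (M : CStarMatrix (Fin m) (Fin m) (CStarMatrix (Fin N) (Fin N) ℂ)) (hM : 0 ≤ M) :
    0 ≤ M.map (rhL (k := k) e j) := by
  refine nonneg_of_bil _ ?_ ?_
  · have h1 : star M = M := (IsSelfAdjoint.of_nonneg hM).star_eq
    show star (M.map (rhL (k := k) e j)) = M.map (rhL (k := k) e j)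
    ext1 i l
    rw [CStarMatrix.star_apply, CStarMatrix.map_apply, CStarMatrix.map_apply, rhL_apply,
      rhL_apply, ← rh_star]
    conv_rhs => rw [← h1]
    rw [CStarMatrix.star_apply]
  · intro z
    have h4 : bil (M.map (rhL (k := k) e j)) z z =
        rhL e j (bil M (fun i => del e j (z i)) (fun i => del e j (z i))) := by
      unfold bil
      rw [map_sum]
      refine Finset.sum_congr rfl fun i _ => ?_
      rw [map_sum]
      refine Finset.sum_congr rfl fun l _ => ?_
      rw [CStarMatrix.map_apply, rhL_apply, rhL_apply, rh_mul_del, ← map_star, rh_del_mul]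
    rw [h4]
    exact rh_nonneg e j _ (bil_nonneg M hM _)

/-- the projection to the block `j` -/
noncomputable def prj (j : Fin K) : CStarMatrix (Fin N) (Fin N) ℂ := del e j 1

theorem norm_prj (j : Fin K) : ‖prj (k := k) e j‖ ≤ 1 := by
  have h1 : star (prj (k := k) e j) * prj (k := k) e j = prj (k := k) e j := by
    unfold prj
    rw [← map_star, ← map_mul, star_one, one_mul]
  have h2 := CStarRing.norm_star_mul_self (x := prj (k := k) e j)
  rw [h1] at h2
  have h3 := norm_nonneg (prj (k := k) e j)
  by_contra h4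
  push Not at h4
  nlinarith

theorem del_rh (j : Fin K) (T : CStarMatrix (Fin N) (Fin N) ℂ) :
    del e j (rh (k := k) e j T) = prj (k := k) e j * T * prj (k := k) e j := by
  have hone : ∀ (x y : Fin K × Fin k), prj (k := k) e j (e.symm (some x)) (e.symm (some y)) =
      if x = y ∧ x.1 = j then 1 else 0 := by
    intro x y
    unfold prj
    rw [del_entry, CStarMatrix.one_apply]
    by_cases h : x = y
    · subst h
      simp
    · rw [if_neg (fun h' : x = y ∧ x.1 = j => h h'.1)]
      by_cases h1 : x.1 = j ∧ y.1 = j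
      · rw [if_pos h1, if_neg (fun h2 => h (Prod.ext (h1.1.trans h1.2.symm) h2))]
      · rw [if_neg h1]
  have hl : ∀ (S : CStarMatrix (Fin N) (Fin N) ℂ) (x : Fin K × Fin k) (q : Fin N),
      (prj (k := k) e j * S) (e.symm (some x)) q =
        if x.1 = j then S (e.symm (some x)) q else 0 := by
    intro S x q
    rw [CStarMatrix.mul_apply, sum_N e]
    unfold prj
    rw [del_none_right, zero_mul, zero_add, Finset.sum_eq_single x]
    · rw [← prj, hone]
      split_ifs with h1 h2 h2
      · rw [one_mul]
      · exact absurd h1.2 h2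
      · exact absurd ⟨rfl, h2⟩ h1
      · rw [zero_mul]
    · intro y _ hy
      rw [← prj, hone, if_neg (fun h => hy h.1.symm), zero_mul]
    · intro h
      exact absurd (Finset.mem_univ _) h
  have hr : ∀ (S : CStarMatrix (Fin N) (Fin N) ℂ) (x : Fin K × Fin k) (q : Fin N),
      (S * prj (k := k) e j) q (e.symm (some x)) =
        if x.1 = j then S q (e.symm (some x)) else 0 := by
    intro S x q
    rw [CStarMatrix.mul_apply, sum_N e]
    unfold prj
    rw [del_none_left, mul_zero, zero_add, Finset.sum_eq_single x]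
    · rw [← prj, hone]
      split_ifs with h1 h2 h2
      · rw [mul_one]
      · exact absurd h1.2 h2
      · exact absurd ⟨rfl, h2⟩ h1
      · rw [mul_zero]
    · intro y _ hy
      rw [← prj, hone, if_neg (fun h => hy h.1), mul_zero]
    · intro h
      exact absurd (Finset.mem_univ _) h
  ext p q
  obtain ⟨p', rfl⟩ := e.symm.surjective p
  obtain ⟨q', rfl⟩ := e.symm.surjective q
  rcases p' with _ | x
  · rw [del_none_left, mul_assoc, CStarMatrix.mul_apply]
    refine (Finset.sum_eq_zero fun r _ => ?_).symm
    unfold prj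
    rw [del_none_left, zero_mul]
  rcases q' with _ | y
  · rw [del_none_right, CStarMatrix.mul_apply]
    refine (Finset.sum_eq_zero fun r _ => ?_).symm
    unfold prj
    rw [del_none_right, mul_zero]
  rw [hr, hl, del_entry, rh_apply]
  by_cases h1 : x.1 = j <;> by_cases h2 : y.1 = j
  · subst h1
    rw [if_pos ⟨rfl, h2⟩, if_pos h2, if_pos rfl]
    have h3 : (x.1, x.2) = x := rfl
    have h4 : (x.1, y.2) = y := Prod.ext h2.symm rfl
    rw [h3, h4]
  · rw [if_neg (fun h => h2 h.2), if_neg h2]
  · rw [if_neg (fun h => h1 h.1), if_pos h2, if_neg h1]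
  · rw [if_neg (fun h => h1 h.1), if_neg h2]

theorem norm_rh (j : Fin K) (T : CStarMatrix (Fin N) (Fin N) ℂ) :
    ‖rh (k := k) e j T‖ ≤ ‖T‖ := by
  have hinj : Function.Injective (del e j : CStarMatrix (Fin k) (Fin k) ℂ →⋆ₙₐ[ℂ] _) := by
    intro S S' h
    rw [← rh_del e j S, ← rh_del e j S', h]
  rw [← NonUnitalStarAlgHom.norm_map (del e j) hinj, del_rh]
  have h1 := norm_prj (k := k) e j
  have h2 := norm_nonneg T
  have h3 := norm_nonneg (prj (k := k) e j)
  calc ‖prj (k := k) e j * T * prj (k := k) e j‖ ≤ ‖prj (k := k) e j * T‖ * ‖prj (k := k) e j‖ :=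
        norm_mul_le _ _
    _ ≤ (‖prj (k := k) e j‖ * ‖T‖) * ‖prj (k := k) e j‖ :=
        mul_le_mul_of_nonneg_right (norm_mul_le _ _) h3
    _ ≤ (1 * ‖T‖) * 1 := by gcongr
    _ = ‖T‖ := by ring

/-- an entry, a linear map -/
noncomputable def entL (p : Fin N) : CStarMatrix (Fin N) (Fin N) ℂ →ₗ[ℂ] ℂ where
  toFun T := T p p
  map_add' S T := by rw [CStarMatrix.add_apply]
  map_smul' c T := by rw [CStarMatrix.smul_apply, RingHom.id_apply]

theorem entL_apply (p : Fin N) (T : CStarMatrix (Fin N) (Fin N) ℂ) : entL p T = T p p := rfl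

theorem entL_cp (p : Fin N) (m : ℕ)
    (M : CStarMatrix (Fin m) (Fin m) (CStarMatrix (Fin N) (Fin N) ℂ)) (hM : 0 ≤ M) :
    0 ≤ M.map (entL p) := by
  refine nonneg_of_bil _ ?_ ?_
  · have h1 : star M = M := (IsSelfAdjoint.of_nonneg hM).star_eq
    show star (M.map (entL p)) = M.map (entL p)
    ext1 i l
    rw [CStarMatrix.star_apply, CStarMatrix.map_apply, CStarMatrix.map_apply, entL_apply,
      entL_apply]
    have h5 : (star M) i l = M i l := by rw [h1]
    rw [CStarMatrix.star_apply] at h5
    rw [← h5, CStarMatrix.star_apply]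
  · intro z
    have h4 : bil (M.map (entL p)) z z =
        entL p (bil M (fun i => kap p (z i)) (fun i => kap p (z i))) := by
      unfold bil
      rw [map_sum]
      refine Finset.sum_congr rfl fun i _ => ?_
      rw [map_sum]
      refine Finset.sum_congr rfl fun l _ => ?_
      rw [CStarMatrix.map_apply, entL_apply, entL_apply, CStarMatrix.mul_apply,
        Finset.sum_eq_single p]
      · rw [CStarMatrix.mul_apply, Finset.sum_eq_single p]
        · beta_reduce
          rw [CStarMatrix.star_apply, kap_apply, kap_apply]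
          simp
        · intro r _ hr
          beta_reduce
          rw [CStarMatrix.star_apply, kap_apply, if_neg (fun h => hr h.1), star_zero, zero_mul]
        · intro h
          exact absurd (Finset.mem_univ _) h
      · intro r _ hr
        beta_reduce
        rw [kap_apply, if_neg (fun h => hr h.1), mul_zero]
      · intro h
        exact absurd (Finset.mem_univ _) h
    rw [h4]
    exact diag_nonneg (bil_nonneg M hM _) p

end

end BDAux

open BDAux in
theorem t_bd : SBD := by
  intro K k
  let e : Fin (Fintype.card (Option (Fin K × Fin k))) ≃ Option (Fin K × Fin k) :=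
    (Fintype.equivFin (Option (Fin K × Fin k))).symm
  refine ⟨Fintype.card (Option (Fin K × Fin k)),
    CompletelyPositiveMapClass.toCompletelyPositiveLinearMap (del0 e),
    ⟨entL (e.symm none), entL_cp (e.symm none)⟩,
    fun j => CompletelyPositiveMapClass.toCompletelyPositiveLinearMap (del e j),
    fun j => ⟨rhL e j, rhL_cp e j⟩, ?_, ?_, ?_, ?_, ?_, ?_, ?_, ?_⟩
  · intro T
    exact CStarMatrix.norm_entry_le_norm (M := T) (i := e.symm none) (j := e.symm none)
  · intro j T
    exact norm_rh e j T
  · intro z
    show (Phi e (z, 0)) (e.symm none) (e.symm none) = z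
    rw [Phi_apply, Equiv.apply_symm_apply]
    rfl
  · intro j T
    exact del_none_left e j T _
  · intro j z
    show rh e j (Phi e (z, 0)) = 0
    ext a b
    rw [rh_apply, Phi_apply, Equiv.apply_symm_apply, Equiv.apply_symm_apply]
    simp [blk]
  · intro j T
    exact rh_del e j T
  · intro i j T h
    exact rh_del_ne e h T
  · intro C z T hz hT
    show ‖Phi e (z, 0) + ∑ j, Phi e (0, Pi.single j (T j))‖ ≤ C
    have hC : 0 ≤ C := (norm_nonneg z).trans hz
    have h1 : Phi e (z, 0) + ∑ j, Phi e (0, Pi.single j (T j)) = Phi e (z, T) := by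
      rw [← map_sum, ← map_add]
      congr 1
      ext1
      · simp [Prod.fst_sum]
      · show 0 + (∑ j, ((0 : ℂ), (Pi.single j (T j) : Fin K → CStarMatrix (Fin k) (Fin k) ℂ))).2 = T
        rw [zero_add, Prod.snd_sum]
        exact Finset.univ_sum_single T
    rw [h1]
    refine (NonUnitalStarAlgHom.norm_apply_le (Phi e) (z, T)).trans ?_
    rw [Prod.norm_def]
    exact max_le hz ((pi_norm_le_iff_of_nonneg hC).2 hT)

end Pool.Agent.N469.CO
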