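import Pool.Agent.N469.CO.Stm

/-!
# Project CONE (helper469), part CPH (helper368): completely positive maps into and out of the cone
-/

set_option autoImplicit false
set_option linter.unusedSectionVars false

open scoped CStarAlgebra ComplexOrder InnerProductSpace

namespace Pool.Agent.N469.CO

namespace CPHAux

section into

variable {A D : Type} [CStarAlgebra A] [PartialOrder A] [StarOrderedRing A]
  [CStarAlgebra D] [PartialOrder (Cone D)] [StarOrderedRing (Cone D)]

omit [PartialOrder (Cone D)] [StarOrderedRing (Cone D)] in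
theorem mem_cone (j : A →⋆ₙₐ[ℂ] D) (h : C(unitInterval, ℝ))
    (h0 : h 0 = 0 ∨ ∀ x, ∃ c : ℂ, j x = algebraMap ℂ D c) (x : A) :
    (⟨fun s => ((h s : ℝ) : ℂ) • j x, by fun_prop⟩ : C(unitInterval, D)) ∈ Cone D := by
  rcases h0 with h0 | h0
  · refine ⟨0, ?_⟩
    show ((h 0 : ℝ) : ℂ) • j x = _
    rw [h0, Complex.ofReal_zero, zero_smul, map_zero]
  · obtain ⟨c, hc⟩ := h0 x
    refine ⟨((h 0 : ℝ) : ℂ) * c, ?_⟩
    show ((h 0 : ℝ) : ℂ) • j x = _
    rw [hc, map_mul, Algebra.smul_def]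

/-- the element `s ↦ h s • j x` of the cone -/
noncomputable def el (j : A →⋆ₙₐ[ℂ] D) (h : C(unitInterval, ℝ))
    (h0 : h 0 = 0 ∨ ∀ x, ∃ c : ℂ, j x = algebraMap ℂ D c) (x : A) : Cone D :=
  ⟨⟨fun s => ((h s : ℝ) : ℂ) • j x, by fun_prop⟩, mem_cone j h h0 x⟩

theorem into (j : A →⋆ₙₐ[ℂ] D) (h : C(unitInterval, ℝ)) (hp : ∀ s, 0 ≤ h s)
    (h0 : h 0 = 0 ∨ ∀ x, ∃ c : ℂ, j x = algebraMap ℂ D c) :
    ∃ Θ : A →CP Cone D, ∀ x s, (Θ x).1 s = ((h s : ℝ) : ℂ) • j x := by
  have hg0 : (⟨fun s => Real.sqrt (h s), by fun_prop⟩ : C(unitInterval, ℝ)) 0 = 0 ∨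
      ∀ x, ∃ c : ℂ, j x = algebraMap ℂ D c := by
    rcases h0 with h0 | h0
    · left
      show Real.sqrt (h 0) = 0
      rw [h0, Real.sqrt_zero]
    · exact Or.inr h0
  let L : A →ₗ[ℂ] Cone D :=
    { toFun := el j h h0
      map_add' := fun x y => by
        apply Subtype.ext
        ext s
        show ((h s : ℝ) : ℂ) • j (x + y) = ((h s : ℝ) : ℂ) • j x + ((h s : ℝ) : ℂ) • j y
        rw [map_add, smul_add]
      map_smul' := fun c x => by
        apply Subtype.ext
        ext s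
        show ((h s : ℝ) : ℂ) • j (c • x) = c • (((h s : ℝ) : ℂ) • j x)
        rw [map_smul, smul_comm] }
  refine ⟨⟨L, ?_⟩, fun x s => rfl⟩
  intro k M hM
  obtain ⟨Y, hY⟩ : ∃ Y : CStarMatrix (Fin k) (Fin k) A, M = star Y * Y := by
    set_option backward.isDefEq.respectTransparency false in
    exact (CStarAlgebra.nonneg_iff_eq_star_mul_self).1 hM
  let Z : CStarMatrix (Fin k) (Fin k) (Cone D) := Y.map (el j _ hg0)
  have hZ : M.map L = star Z * Z := by
    ext1 a b
    apply Subtype.ext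
    ext s
    rw [hY]
    have e1 : ((star Z * Z) a b) = ∑ r, star (Z r a) * Z r b := by
      rw [CStarMatrix.mul_apply]
      rfl
    have e2 : ((star Y * Y) a b) = ∑ r, star (Y r a) * Y r b := by
      rw [CStarMatrix.mul_apply]
      rfl
    rw [e1]
    show ((h s : ℝ) : ℂ) • j ((star Y * Y) a b) = _
    rw [e2, map_sum, Finset.smul_sum]
    have e3 : ((∑ r, star (Z r a) * Z r b : Cone D) : C(unitInterval, D)) s =
        ∑ r, (star ((Z r a : Cone D) : C(unitInterval, D)) * ((Z r b : Cone D) : C(unitInterval, D))) s := by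
      rw [AddSubmonoidClass.coe_finsetSum, ContinuousMap.sum_apply]
      rfl
    refine Eq.trans ?_ e3.symm
    refine Finset.sum_congr rfl fun r _ => ?_
    show _ = star (((Real.sqrt (h s) : ℝ) : ℂ) • j (Y r a)) * (((Real.sqrt (h s) : ℝ) : ℂ) • j (Y r b))
    rw [star_smul, Complex.star_def, Complex.conj_ofReal, smul_mul_smul_comm, ← Complex.ofReal_mul,
      Real.mul_self_sqrt (hp s), map_mul, map_star]
  show 0 ≤ M.map L
  rw [hZ]
  set_option backward.isDefEq.respectTransparency false in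
  exact star_mul_self_nonneg Z

end into

section out

variable {D : Type} [CStarAlgebra D]

/-- evaluation -/
noncomputable def ev (t : unitInterval) : Cone D →⋆ₐ[ℂ] D where
  toFun f := f.1 t
  map_one' := rfl
  map_mul' _ _ := rfl
  map_zero' := rfl
  map_add' _ _ := rfl
  commutes' _ := rfl
  map_star' _ := rfl

variable [Nontrivial D]

theorem inj : Function.Injective (algebraMap ℂ D) := (algebraMap ℂ D).injective

/-- the scalar at `0` -/
noncomputable def sc (f : Cone D) : ℂ := f.2.choose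

theorem sc_spec (f : Cone D) : f.1 0 = algebraMap ℂ D (sc f) := f.2.choose_spec

theorem sc_eq {f : Cone D} {c : ℂ} (h : f.1 0 = algebraMap ℂ D c) : sc f = c :=
  inj ((sc_spec f).symm.trans h)

/-- the character -/
noncomputable def ch : Cone D →⋆ₐ[ℂ] ℂ where
  toFun := sc
  map_one' := sc_eq (by rw [map_one]; rfl)
  map_mul' f g := sc_eq (by rw [map_mul, ← sc_spec, ← sc_spec]; rfl)
  map_zero' := sc_eq (by rw [map_zero (algebraMap ℂ D)]; rfl)
  map_add' f g := sc_eq (by rw [map_add, ← sc_spec, ← sc_spec]; rfl)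
  commutes' r := sc_eq rfl
  map_star' f := sc_eq (by rw [algebraMap_star_comm, ← sc_spec]; rfl)

end out

end CPHAux

open CPHAux in
theorem t_cph : SCPH := by
  intro D _ _ _ _ _ _
  refine ⟨fun h hp h0 => ?_, fun h hp => ?_, fun t => ?_, ?_⟩
  · exact into (NonUnitalStarAlgHom.id ℂ D) h hp (Or.inl h0)
  · obtain ⟨Θ, hΘ⟩ := into (A := ℂ) (D := D)
      ((StarAlgHom.ofId ℂ D : ℂ →⋆ₐ[ℂ] D) : ℂ →⋆ₙₐ[ℂ] D) h hp (Or.inr fun x => ⟨x, rfl⟩)
    refine ⟨Θ, fun z s => ?_⟩
    rw [hΘ]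
    congr 1
    exact Algebra.algebraMap_eq_smul_one z
  · exact ⟨CompletelyPositiveMapClass.toCompletelyPositiveLinearMap (ev t : Cone D →⋆ₐ[ℂ] D), fun f => rfl⟩
  · refine ⟨CompletelyPositiveMapClass.toCompletelyPositiveLinearMap (ch : Cone D →⋆ₐ[ℂ] ℂ), fun f => ?_⟩
    show f.1 0 = sc f • (1 : D)
    rw [sc_spec, Algebra.algebraMap_eq_smul_one]

end Pool.Agent.N469.CO
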