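import Pool.Agent.N469.CO.Stm

/-!
# Project CONE, part CPT: composition and sums of completely positive maps
-/

set_option autoImplicit false

open scoped CStarAlgebra ComplexOrder InnerProductSpace

namespace Pool.Agent.N469.CO

namespace CPTAux

section

variable {A B C : Type} [NonUnitalCStarAlgebra A] [PartialOrder A] [StarOrderedRing A]
    [NonUnitalCStarAlgebra B] [PartialOrder B] [StarOrderedRing B]
    [NonUnitalCStarAlgebra C] [PartialOrder C] [StarOrderedRing C]

/-- composition -/
noncomputable def comp (f : A →CP B) (g : B →CP C) : A →CP C where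
  toLinearMap := g.toLinearMap ∘ₗ f.toLinearMap
  map_cstarMatrix_nonneg' k M hM :=
    g.map_cstarMatrix_nonneg' k _ (f.map_cstarMatrix_nonneg' k M hM)

/-- the zero map -/
noncomputable def zero : A →CP B where
  toLinearMap := 0
  map_cstarMatrix_nonneg' k M hM := by
    have h : M.map (0 : A →ₗ[ℂ] B) = 0 := by
      ext i j
      rfl
    rw [h]

/-- sum of two maps -/
noncomputable def add (f g : A →CP B) : A →CP B where
  toLinearMap := f.toLinearMap + g.toLinearMap
  map_cstarMatrix_nonneg' k M hM := by
    have h : M.map (f.toLinearMap + g.toLinearMap : A →ₗ[ℂ] B) =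
        M.map f.toLinearMap + M.map g.toLinearMap := by
      ext i j
      rfl
    rw [h]
    exact add_nonneg (f.map_cstarMatrix_nonneg' k M hM) (g.map_cstarMatrix_nonneg' k M hM)

end

end CPTAux

theorem t_cpt : SCPT := by
  refine ⟨?_, ?_, ?_⟩
  · intro A B C _ _ _ _ _ _ _ _ _ f g
    exact ⟨CPTAux.comp f g, fun x => rfl⟩
  · intro A B _ _ _ _ _ _ n
    induction n with
    | zero =>
      intro f
      exact ⟨CPTAux.zero, fun x => by simp; rfl⟩
    | succ n ih =>
      intro f
      obtain ⟨h, hh⟩ := ih fun i => f i.succ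
      refine ⟨CPTAux.add (f 0) h, fun x => ?_⟩
      rw [Fin.sum_univ_succ, ← hh]
      rfl
  · intro A B _ _ _ _ _ _ f g
    exact ⟨CPTAux.add f g, fun x => rfl⟩

end Pool.Agent.N469.CO
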