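import Pool.Agent.N469.CO.Stm

/-!
# Project CONE (MP_b9f29c_an): the Cuntz isometries exist
-/

set_option autoImplicit false

open scoped CStarAlgebra ComplexOrder InnerProductSpace

namespace Pool.Agent.N469.CO

namespace CzAux

/-- the Hilbert space -/
noncomputable abbrev L := lp (fun _ : ℕ => ℂ) 2

/-- the standard basis -/
noncomputable def b : HilbertBasis ℕ ℂ L := HilbertBasis.ofRepr (LinearIsometryEquiv.refl ℂ L)

theorem b_eq (k : ℕ) : b k = lp.single 2 k (1 : ℂ) := by
  have h := b.repr_self k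
  exact h

theorem orth_sub (i : Fin 2) : Orthonormal ℂ (fun k : ℕ => b (2 * k + i)) :=
  b.orthonormal.comp (fun k : ℕ => 2 * k + (i : ℕ)) (fun k l h => by
    have h' : 2 * k + (i : ℕ) = 2 * l + (i : ℕ) := h
    omega)

/-- the isometries -/
noncomputable def V (i : Fin 2) : L →L[ℂ] L :=
  (orth_sub i).orthogonalFamily.linearIsometry.toContinuousLinearMap

theorem V_b (i : Fin 2) (k : ℕ) : V i (b k) = b (2 * k + i) := by
  have h := (orth_sub i).orthogonalFamily.linearIsometry_apply_single (i := k) (1 : ℂ)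
  rw [b_eq k]
  show (orth_sub i).orthogonalFamily.linearIsometry (lp.single 2 k (1 : ℂ)) = _
  rw [h]
  simp

theorem ext_b {x y : L} (h : ∀ k, ⟪b k, x⟫_ℂ = ⟪b k, y⟫_ℂ) : x = y := by
  apply b.repr.injective
  apply lp.ext
  funext k
  rw [b.repr_apply_apply, b.repr_apply_apply]
  exact h k

theorem map_ext {f g : L →L[ℂ] L} (h : ∀ k, f (b k) = g (b k)) : f = g := by
  refine ContinuousLinearMap.ext_on (s := Set.range b) ?_ ?_
  · have h1 := b.dense_span
    rw [dense_iff_closure_eq, ← Submodule.topologicalClosure_coe, h1]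
    rfl
  · rintro _ ⟨k, rfl⟩
    exact h k

theorem inner_b (k m : ℕ) : ⟪b k, b m⟫_ℂ = if k = m then 1 else 0 :=
  (orthonormal_iff_ite.mp b.orthonormal) k m

theorem star_V (i : Fin 2) (m : ℕ) :
    (star (V i)) (b m) = if m % 2 = (i : ℕ) then b (m / 2) else 0 := by
  apply ext_b
  intro k
  have h1 : ⟪b k, (star (V i)) (b m)⟫_ℂ = ⟪V i (b k), b m⟫_ℂ := by
    rw [ContinuousLinearMap.star_eq_adjoint]
    exact ContinuousLinearMap.adjoint_inner_right (V i) (b k) (b m)
  rw [h1, V_b, inner_b]
  have hi := i.isLt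
  by_cases hm : m % 2 = (i : ℕ)
  · rw [if_pos hm, inner_b]
    by_cases hk : k = m / 2
    · rw [if_pos hk, if_pos (by omega)]
    · rw [if_neg hk, if_neg (by omega)]
  · rw [if_neg hm, inner_zero_right, if_neg (by omega)]

theorem iso (i j : Fin 2) : star (V i) * V j = if i = j then 1 else 0 := by
  apply map_ext
  intro k
  rw [ContinuousLinearMap.mul_apply, V_b, star_V]
  have hi := i.isLt
  have hj := j.isLt
  by_cases h : i = j
  · subst h
    rw [if_pos rfl, if_pos (by omega), ContinuousLinearMap.one_apply]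
    congr 1
    omega
  · have h' : (i : ℕ) ≠ (j : ℕ) := fun hh => h (Fin.ext hh)
    rw [if_neg h, if_neg (by omega), ContinuousLinearMap.zero_apply]

theorem tot : V 0 * star (V 0) + V 1 * star (V 1) = 1 := by
  apply map_ext
  intro m
  rw [ContinuousLinearMap.add_apply, ContinuousLinearMap.mul_apply, ContinuousLinearMap.mul_apply,
    star_V, star_V, ContinuousLinearMap.one_apply]
  rcases Nat.mod_two_eq_zero_or_one m with h | h
  · have h0 : m % 2 = ((0 : Fin 2) : ℕ) := by simpa using h
    have h1 : ¬ m % 2 = ((1 : Fin 2) : ℕ) := by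
      rw [h]
      simp
    rw [if_pos h0, if_neg h1, map_zero, add_zero, V_b]
    congr 1
    rw [Fin.val_zero]
    omega
  · have h0 : ¬ m % 2 = ((0 : Fin 2) : ℕ) := by
      rw [h]
      simp
    have h1 : m % 2 = ((1 : Fin 2) : ℕ) := by
      rw [h]
      simp
    rw [if_neg h0, if_pos h1, map_zero, zero_add, V_b]
    congr 1
    rw [Fin.val_one]
    omega

end CzAux

/-- CZ: the Cuntz isometries exist -/
theorem t_cz : SCz :=
  ⟨CzAux.L, inferInstance, inferInstance, inferInstance,
    ⟨{ s := CzAux.V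
       e := fun k => CzAux.b k
       orth := CzAux.b.orthonormal
       iso := CzAux.iso
       tot := CzAux.tot
       act := CzAux.V_b }⟩⟩

end Pool.Agent.N469.CO
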