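import Mathlib

/-!
# Project CONE (MP_b9f29c_an): definitions

The unitised cone over the Cuntz algebra `O_2` is separable, nuclear and stably finite, and it is
not locally approximable by type I C*-subalgebras.
-/

set_option autoImplicit false

open scoped CStarAlgebra ComplexOrder InnerProductSpace

namespace Pool.Agent.N469.CO

/-- an irreducible representation: it is not zero and there is no closed invariant subspace
other than `0` and the whole space -/
def Irred {B : Type} [NonUnitalNonAssocSemiring B] [DistribMulAction ℂ B] [Star B]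
    {H : Type} [NormedAddCommGroup H] [InnerProductSpace ℂ H] [CompleteSpace H]
    (π : B →⋆ₙₐ[ℂ] (H →L[ℂ] H)) : Prop :=
  (∃ b, π b ≠ 0) ∧ ∀ M : Submodule ℂ H, IsClosed (M : Set H) →
    (∀ b, ∀ x ∈ M, π b x ∈ M) → M = ⊥ ∨ M = ⊤

/-- type I: the image of every irreducible representation contains the compact operators -/
def TypeI (B : Type) [NonUnitalNonAssocSemiring B] [DistribMulAction ℂ B] [Star B] : Prop :=
  ∀ (H : Type) [NormedAddCommGroup H] [InnerProductSpace ℂ H] [CompleteSpace H]
    (π : B →⋆ₙₐ[ℂ] (H →L[ℂ] H)), Irred π →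
    ∀ T : H →L[ℂ] H, IsCompactOperator T → ∃ b, π b = T

/-- locally approximable by type I C*-algebras -/
def LocTypeI (A : Type) [NonUnitalCStarAlgebra A] : Prop :=
  ∀ (F : Finset A) (ε : ℝ), 0 < ε → ∃ B : NonUnitalStarSubalgebra ℂ A,
    IsClosed (B : Set A) ∧ TypeI B ∧ ∀ x ∈ F, Metric.infDist x (B : Set A) < ε

/-- nuclear: the identity is a point-norm limit of completely positive contractions which
factor through matrix algebras -/
def Nuclear (A : Type) [NonUnitalCStarAlgebra A] [PartialOrder A] [StarOrderedRing A] : Prop :=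
  ∀ (F : Finset A) (ε : ℝ), 0 < ε → ∃ (k : ℕ) (φ : A →CP CStarMatrix (Fin k) (Fin k) ℂ)
    (ψ : CStarMatrix (Fin k) (Fin k) ℂ →CP A),
    (∀ x, ‖φ x‖ ≤ ‖x‖) ∧ (∀ T, ‖ψ T‖ ≤ ‖T‖) ∧ ∀ x ∈ F, ‖ψ (φ x) - x‖ ≤ ε

/-- stably finite (for unital algebras): in each `M_n(A)` every isometry is a unitary -/
def StablyFinite (A : Type) [CStarAlgebra A] : Prop :=
  ∀ (n : ℕ) (v : Matrix (Fin n) (Fin n) A), star v * v = 1 → v * star v = 1

/-- the unitised cone over `D`: the continuous functions `f : [0,1] → D` for which `f 0` is a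
scalar multiple of the unit -/
noncomputable def Cone (D : Type) [CStarAlgebra D] : StarSubalgebra ℂ C(unitInterval, D) where
  carrier := {f | ∃ c : ℂ, f 0 = algebraMap ℂ D c}
  mul_mem' := by
    rintro f g ⟨a, ha⟩ ⟨b, hb⟩
    exact ⟨a * b, by rw [ContinuousMap.mul_apply, ha, hb, map_mul]⟩
  add_mem' := by
    rintro f g ⟨a, ha⟩ ⟨b, hb⟩
    exact ⟨a + b, by rw [ContinuousMap.add_apply, ha, hb, map_add]⟩
  algebraMap_mem' := fun r => ⟨r, rfl⟩
  star_mem' := by
    rintro f ⟨a, ha⟩
    exact ⟨star a, by rw [ContinuousMap.star_apply, ha, algebraMap_star_comm]⟩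

theorem isClosed_Cone (D : Type) [CStarAlgebra D] : IsClosed (Cone D : Set C(unitInterval, D)) := by
  have h1 : (Cone D : Set C(unitInterval, D)) =
      (fun f : C(unitInterval, D) => f 0) ⁻¹' (Set.range (algebraMap ℂ D)) := by
    ext f
    constructor
    · rintro ⟨c, hc⟩
      exact ⟨c, hc.symm⟩
    · rintro ⟨c, hc⟩
      exact ⟨c, hc.symm⟩
  rw [h1]
  refine IsClosed.preimage (continuous_eval_const (0 : unitInterval)) ?_
  have h2 : Set.range (algebraMap ℂ D) =
      ((LinearMap.range (Algebra.linearMap ℂ D) : Submodule ℂ D) : Set D) := by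
    ext x
    simp
  rw [h2]
  exact Submodule.closed_of_finiteDimensional _

noncomputable instance (D : Type) [CStarAlgebra D] : CStarAlgebra (Cone D) :=
  haveI : IsClosed (Cone D : Set C(unitInterval, D)) := isClosed_Cone D
  inferInstance

/-- a pair of operators which satisfy the relations of Cuntz, with an orthonormal sequence -/
structure Cz (H : Type) [NormedAddCommGroup H] [InnerProductSpace ℂ H] [CompleteSpace H] where
  /-- the two isometries -/
  s : Fin 2 → (H →L[ℂ] H)
  /-- the orthonormal sequence -/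
  e : ℕ → H
  orth : Orthonormal ℂ e
  iso : ∀ i j, star (s i) * s j = if i = j then 1 else 0
  tot : s 0 * star (s 0) + s 1 * star (s 1) = 1
  act : ∀ (i : Fin 2) (k : ℕ), s i (e k) = e (2 * k + i)

/-- the C*-algebra `O_2` generated by the two isometries -/
noncomputable def O2 {H : Type} [NormedAddCommGroup H] [InnerProductSpace ℂ H] [CompleteSpace H]
    (c : Cz H) : StarSubalgebra ℂ (H →L[ℂ] H) :=
  (StarAlgebra.adjoin ℂ (Set.range c.s)).topologicalClosure

theorem isClosed_O2 {H : Type} [NormedAddCommGroup H] [InnerProductSpace ℂ H] [CompleteSpace H]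
    (c : Cz H) : IsClosed (O2 c : Set (H →L[ℂ] H)) :=
  StarSubalgebra.isClosed_topologicalClosure _

noncomputable instance {H : Type} [NormedAddCommGroup H] [InnerProductSpace ℂ H] [CompleteSpace H]
    (c : Cz H) : CStarAlgebra (O2 c) :=
  haveI : IsClosed (O2 c : Set (H →L[ℂ] H)) := isClosed_O2 c
  inferInstance

/-- the words in the isometries, indexed by the binary expansion -/
noncomputable def w {H : Type} [NormedAddCommGroup H] [InnerProductSpace ℂ H] [CompleteSpace H]
    (c : Cz H) : ℕ → (H →L[ℂ] H)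
  | 0 => 0
  | 1 => 1
  | n + 2 => c.s (Fin.ofNat 2 (n + 2)) * w c ((n + 2) / 2)
  decreasing_by omega

end Pool.Agent.N469.CO
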