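import Pool.Agent.N469.CO.Stm

set_option autoImplicit false

/-! CONE/FD: no two approximate isometries with approximately orthogonal ranges in finite
dimension (helper11). -/

open scoped CStarAlgebra ComplexOrder InnerProductSpace

namespace Pool.Agent.N469.CO

namespace FDAux

variable {H : Type} [NormedAddCommGroup H] [InnerProductSpace ℂ H] [CompleteSpace H]

lemma apply_bound (S : H →L[ℂ] H) (h : ‖star S * S - 1‖ ≤ 1 / 4) (x : H) :
    ‖(star S * S) x - x‖ ≤ 1 / 4 * ‖x‖ := by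
  have h1 := (star S * S - 1).le_opNorm x
  have h2 : (star S * S - 1) x = (star S * S) x - x := by
    rw [sub_apply, ContinuousLinearMap.one_apply]
  rw [h2] at h1
  exact h1.trans (mul_le_mul_of_nonneg_right h (norm_nonneg _))

lemma sq_bound (S : H →L[ℂ] H) (h : ‖star S * S - 1‖ ≤ 1 / 4) (x : H) :
    |‖S x‖ ^ 2 - ‖x‖ ^ 2| ≤ 1 / 4 * ‖x‖ ^ 2 := by
  have h1 : ‖S x‖ ^ 2 = RCLike.re ⟪(star S * S) x, x⟫_ℂ :=
    S.apply_norm_sq_eq_inner_adjoint_left x
  have h2 : ‖x‖ ^ 2 = RCLike.re ⟪x, x⟫_ℂ := (inner_self_eq_norm_sq (𝕜 := ℂ) x).symm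
  have h3 : ‖S x‖ ^ 2 - ‖x‖ ^ 2 = RCLike.re ⟪(star S * S) x - x, x⟫_ℂ := by
    rw [h1, h2, inner_sub_left, map_sub]
  rw [h3]
  calc |RCLike.re ⟪(star S * S) x - x, x⟫_ℂ| ≤ ‖⟪(star S * S) x - x, x⟫_ℂ‖ :=
        RCLike.abs_re_le_norm _
    _ ≤ ‖(star S * S) x - x‖ * ‖x‖ := norm_inner_le_norm _ _
    _ ≤ 1 / 4 * ‖x‖ * ‖x‖ := mul_le_mul_of_nonneg_right (apply_bound S h x) (norm_nonneg _)
    _ = 1 / 4 * ‖x‖ ^ 2 := by ring

end FDAux

open FDAux in
theorem t_fd : SFD := by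
  intro H _ _ _ _ _ S T hS hT hST
  have hlow : ∀ x, 3 / 4 * ‖x‖ ≤ ‖(star S * S) x‖ := by
    intro x
    have h1 := apply_bound S hS x
    have h2 : ‖x‖ ≤ ‖(star S * S) x‖ + ‖(star S * S) x - x‖ := by
      have := norm_sub_le ((star S * S) x) ((star S * S) x - x)
      rwa [sub_sub_cancel] at this
    linarith
  have hinj : Function.Injective S := by
    rw [injective_iff_map_eq_zero]
    intro x hx
    have h1 := hlow x
    have h2 : (star S * S) x = 0 := by
      change star S (S x) = 0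
      rw [hx, map_zero]
    rw [h2, norm_zero] at h1
    have h3 : ‖x‖ ≤ 0 := by linarith
    exact norm_le_zero_iff.1 h3
  have hsurj : Function.Surjective S :=
    (LinearMap.injective_iff_surjective (f := (S : H →ₗ[ℂ] H))).1 hinj
  obtain ⟨v, hv⟩ := exists_norm_eq H (zero_le_one (α := ℝ))
  obtain ⟨x, hx⟩ := hsurj (T v)
  have h1 : ‖(star S * S) x‖ ≤ 1 / 4 := by
    have e : (star S * S) x = (star S * T) v := by
      change star S (S x) = star S (T v)
      rw [hx]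
    rw [e]
    refine ((star S * T).le_opNorm v).trans ?_
    rw [hv, mul_one]
    exact hST
  have h2 := hlow x
  have h3 : ‖x‖ ≤ 1 / 3 := by linarith
  have h4 := abs_le.1 (sq_bound S hS x)
  have h5 := abs_le.1 (sq_bound T hT v)
  rw [hx] at h4
  rw [hv] at h5
  have h6 : ‖x‖ ^ 2 ≤ (1 / 3) ^ 2 := pow_le_pow_left₀ (norm_nonneg _) h3 2
  nlinarith [h4.2, h5.1]

end Pool.Agent.N469.CO
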