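import Pool.Agent.N469.CO.Stm

/-!
# Project CONE: the result from its parts
-/

set_option autoImplicit false

open scoped CStarAlgebra ComplexOrder InnerProductSpace
open Filter Topology

namespace Pool.Agent.N469.CO

/-- evaluation at `1` -/
noncomputable def ev1 (D : Type) [CStarAlgebra D] : Cone D →⋆ₙₐ[ℂ] D where
  toFun f := f.1 1
  map_smul' _ _ := rfl
  map_zero' := rfl
  map_add' _ _ := rfl
  map_mul' _ _ := rfl
  map_star' _ := rfl

theorem ev1_surjective (D : Type) [CStarAlgebra D] : Function.Surjective (ev1 D) := by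
  intro x
  refine ⟨⟨⟨fun t => ((t : ℝ) : ℂ) • x, by fun_prop⟩, 0, ?_⟩, ?_⟩
  · simp
  · show (((1 : unitInterval) : ℝ) : ℂ) • x = x
    simp

/-- every separable nuclear unital algebra gives a separable, nuclear and stably finite cone -/
theorem family (hFin : SFin) (hSep : SSep) (hNuc : SNuc) (hObs : SObs) :
    ∀ (D : Type) [CStarAlgebra D] [Nontrivial D] [PartialOrder D] [StarOrderedRing D]
      [PartialOrder (Cone D)] [StarOrderedRing (Cone D)],
      TopologicalSpace.SeparableSpace D → Nuclear D →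
      TopologicalSpace.SeparableSpace (Cone D) ∧ Nuclear (Cone D) ∧ StablyFinite (Cone D) ∧
      ∀ s t : D, star s * s = 1 → star t * t = 1 → star s * t = 0 → ¬ LocTypeI (Cone D) := by
  intro D _ _ _ _ _ _ h1 h2
  exact ⟨hSep D h1, hNuc D h2, hFin D, fun s t hs ht hst =>
    hObs (Cone D) D (ev1 D) (ev1_surjective D) s t hs ht hst⟩

/-- the Cuntz algebra -/
theorem cuntz (hCz : SCz) (hS : ∀ (H : Type) [NormedAddCommGroup H] [InnerProductSpace ℂ H]
    [CompleteSpace H] (c : Cz H), TopologicalSpace.SeparableSpace (O2 c))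
    (hN : ∀ (H : Type) [NormedAddCommGroup H] [InnerProductSpace ℂ H]
    [CompleteSpace H] (c : Cz H) [PartialOrder (O2 c)] [StarOrderedRing (O2 c)],
    Nuclear (O2 c)) :
    ∃ (D : Type) (_ : CStarAlgebra D) (_ : PartialOrder D) (_ : StarOrderedRing D),
      Nontrivial D ∧ TopologicalSpace.SeparableSpace D ∧ Nuclear D ∧
      ∃ s t : D, star s * s = 1 ∧ star t * t = 1 ∧ star s * t = 0 := by
  obtain ⟨H, i1, i2, i3, ⟨c⟩⟩ := hCz
  have hmem : ∀ i, c.s i ∈ O2 c := fun i =>
    StarSubalgebra.le_topologicalClosure _ (StarAlgebra.subset_adjoin ℂ _ ⟨i, rfl⟩)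
  have hnt : Nontrivial (O2 c) := by
    refine ⟨⟨0, 1, fun h => ?_⟩⟩
    have h1 : (0 : H →L[ℂ] H) = 1 := congrArg Subtype.val h
    have h2 : c.e 0 = 0 := by
      have := congrArg (fun T : H →L[ℂ] H => T (c.e 0)) h1
      simpa using this.symm
    have h3 := c.orth.1 0
    rw [h2, norm_zero] at h3
    exact zero_ne_one h3
  refine ⟨O2 c, inferInstance, CStarAlgebra.spectralOrder _, CStarAlgebra.spectralOrderedRing _,
    hnt, hS H c, ?_, ⟨c.s 0, hmem 0⟩, ⟨c.s 1, hmem 1⟩, ?_, ?_, ?_⟩
  · letI : PartialOrder (O2 c) := CStarAlgebra.spectralOrder _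
    haveI : StarOrderedRing (O2 c) := CStarAlgebra.spectralOrderedRing _
    exact hN H c
  · exact Subtype.ext (by simpa using c.iso 0 0)
  · exact Subtype.ext (by simpa using c.iso 1 1)
  · exact Subtype.ext (by simpa using c.iso 0 1)

end Pool.Agent.N469.CO
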