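import Pool.Agent.N469.CO.Stm

/-!
# Project CONE (MP_b9f29c_an): the unitised cone is stably finite (by helper674)
-/

set_option autoImplicit false

open scoped CStarAlgebra ComplexOrder InnerProductSpace

namespace Pool.Agent.N469.CO

attribute [local instance] Matrix.linftyOpNormedRing

namespace FinAux

/-- the evaluation at `t` -/
noncomputable def evt (D : Type) [CStarAlgebra D] (t : unitInterval) : Cone D →+* D where
  toFun f := (f : C(unitInterval, D)) t
  map_one' := rfl
  map_mul' _ _ := rfl
  map_zero' := rfl
  map_add' _ _ := rfl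

section
variable {D : Type} [CStarAlgebra D] {n : ℕ}

theorem star_map (t : unitInterval) (v : Matrix (Fin n) (Fin n) (Cone D)) :
    (star v).map (evt D t) = star (v.map (evt D t)) := by
  ext i j
  rfl

theorem map_one' (t : unitInterval) :
    (1 : Matrix (Fin n) (Fin n) (Cone D)).map (evt D t) = 1 :=
  Matrix.map_one _ (map_zero _) (map_one _)

theorem idem {v : Matrix (Fin n) (Fin n) D} (hv : star v * v = 1) :
    (1 - v * star v) * (1 - v * star v) = 1 - v * star v := by
  have h1 : v * star v * (v * star v) = v * star v := by
    calc v * star v * (v * star v) = v * (star v * v) * star v := by simp only [mul_assoc]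
      _ = v * star v := by rw [hv, mul_one]
  rw [sub_mul, one_mul, mul_sub, mul_one, h1, sub_self, sub_zero]

theorem cont (v : Matrix (Fin n) (Fin n) (Cone D)) :
    Continuous fun t : unitInterval => ‖1 - v.map (evt D t) * star (v.map (evt D t))‖ := by
  simp only [Matrix.linfty_opNorm_def]
  refine NNReal.continuous_coe.comp ?_
  refine Continuous.finset_sup_apply fun i _ => ?_
  refine continuous_finsetSum _ fun j _ => ?_
  refine Continuous.nnnorm ?_
  simp only [Matrix.sub_apply, Matrix.mul_apply]
  refine Continuous.sub continuous_const ?_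
  refine continuous_finsetSum _ fun k _ => ?_
  refine Continuous.mul ?_ ?_
  · exact ((v i k : Cone D) : C(unitInterval, D)).continuous
  · exact (((v j k : Cone D) : C(unitInterval, D)).continuous).star

end

end FinAux

open FinAux in
theorem t_fin : SFin := by
  intro D _ _ n v hv
  have hV : ∀ t, star (v.map (evt D t)) * v.map (evt D t) = 1 := by
    intro t
    rw [← star_map, ← Matrix.map_mul, hv, FinAux.map_one']
  -- the projection at zero
  have h0 : v.map (evt D 0) * star (v.map (evt D 0)) = 1 := by
    have hc : ∀ i j, ∃ c : ℂ, evt D 0 (v i j) = algebraMap ℂ D c := fun i j => (v i j).2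
    choose c hc using hc
    set C : Matrix (Fin n) (Fin n) ℂ := Matrix.of c with hC
    have h1 : v.map (evt D 0) = C.map (algebraMap ℂ D) := by
      ext i j
      exact hc i j
    have h2 : star (C.map (algebraMap ℂ D)) = (star C).map (algebraMap ℂ D) := by
      ext i j
      exact (algebraMap_star_comm (A := D) (c j i)).symm
    have h3 := hV 0
    rw [h1, h2, ← Matrix.map_mul] at h3
    have h4 : (1 : Matrix (Fin n) (Fin n) D) = (1 : Matrix (Fin n) (Fin n) ℂ).map (algebraMap ℂ D) :=
      (Matrix.map_one _ (map_zero _) (map_one _)).symm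
    rw [h4] at h3
    have h5 : star C * C = 1 := by
      ext i j
      have h6 := congrFun (congrFun h3 i) j
      exact (algebraMap ℂ D).injective h6
    have h6 : C * star C = 1 := mul_eq_one_comm.1 h5
    rw [h1, h2, ← Matrix.map_mul, h6, ← h4]
  -- the norm
  have hN : ∀ t, ‖1 - v.map (evt D t) * star (v.map (evt D t))‖ = 0 ∨
      1 ≤ ‖1 - v.map (evt D t) * star (v.map (evt D t))‖ := by
    intro t
    have h1 := idem (hV t)
    have h2 := norm_mul_le (1 - v.map (evt D t) * star (v.map (evt D t)))
      (1 - v.map (evt D t) * star (v.map (evt D t)))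
    rw [h1] at h2
    have h3 := norm_nonneg (1 - v.map (evt D t) * star (v.map (evt D t)))
    rcases h3.eq_or_lt with h4 | h4
    · exact Or.inl h4.symm
    · right
      by_contra h5
      push Not at h5
      nlinarith
  have hZ : ∀ t, v.map (evt D t) * star (v.map (evt D t)) = 1 := by
    intro t
    rcases hN t with h | h
    · exact (sub_eq_zero.1 (norm_eq_zero.1 h)).symm
    · exfalso
      have h00 : ‖1 - v.map (evt D 0) * star (v.map (evt D 0))‖ = 0 := by
        rw [h0, sub_self, norm_zero]
      obtain ⟨s, hs⟩ := mem_range_of_exists_le_of_exists_ge (c := (1 / 2 : ℝ)) (cont v)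
        ⟨0, by rw [h00]; norm_num⟩ ⟨t, by linarith⟩
      have hs' : ‖1 - v.map (evt D s) * star (v.map (evt D s))‖ = 1 / 2 := hs
      rcases hN s with h1 | h1
      · rw [h1] at hs'
        norm_num at hs'
      · rw [hs'] at h1
        norm_num at h1
  refine Matrix.ext fun i j => Subtype.ext (ContinuousMap.ext fun t => ?_)
  have h1 : (v * star v).map (evt D t) = (1 : Matrix (Fin n) (Fin n) (Cone D)).map (evt D t) := by
    rw [Matrix.map_mul, star_map, hZ, FinAux.map_one']
  exact congrFun (congrFun h1 i) j

end Pool.Agent.N469.CO
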