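import Pool.Agent.N469.CO.Stm

/-!
# Project CONE (MP_b9f29c_an): maximal proper two-sided ideals exist (`SMax`)
-/

set_option autoImplicit false

namespace Pool.Agent.N469.CO

theorem t_max : SMax := by
  intro C _ _
  let S : Set (Submodule ℂ C) := {J | (∀ a, ∀ x ∈ J, a * x ∈ J) ∧ (∀ a, ∀ x ∈ J, x * a ∈ J) ∧
    (1 : C) ∉ J}
  have hbot : (⊥ : Submodule ℂ C) ∈ S := by
    refine ⟨fun a x hx => ?_, fun a x hx => ?_, fun h => ?_⟩
    · rw [Submodule.mem_bot] at hx ⊢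
      rw [hx, mul_zero]
    · rw [Submodule.mem_bot] at hx ⊢
      rw [hx, zero_mul]
    · rw [Submodule.mem_bot] at h
      exact one_ne_zero h
  obtain ⟨J, -, hJ⟩ := zorn_le_nonempty₀ S (fun c hc hchain y hy => by
    have hmem : ∀ z : C, z ∈ sSup c ↔ ∃ K ∈ c, z ∈ K := fun z =>
      Submodule.mem_sSup_of_directed ⟨y, hy⟩ hchain.directedOn
    refine ⟨sSup c, ⟨fun a x hx => ?_, fun a x hx => ?_, fun h => ?_⟩, fun z hz => le_sSup hz⟩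
    · obtain ⟨K, hK, hxK⟩ := (hmem x).1 hx
      exact (hmem _).2 ⟨K, hK, (hc hK).1 a x hxK⟩
    · obtain ⟨K, hK, hxK⟩ := (hmem x).1 hx
      exact (hmem _).2 ⟨K, hK, (hc hK).2.1 a x hxK⟩
    · obtain ⟨K, hK, h1⟩ := (hmem 1).1 h
      exact (hc hK).2.2 h1) ⊥ hbot
  refine ⟨J, hJ.prop.1, hJ.prop.2.1, hJ.prop.2.2, fun I h1 h2 hJI hx => ?_⟩
  by_contra h
  obtain ⟨x, hxI, hxJ⟩ := hx
  exact hxJ (hJ.le_of_ge (show I ∈ S from ⟨h1, h2, h⟩) hJI hxI)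

end Pool.Agent.N469.CO
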