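import Pool.Agent.N469.CO.Stm

/-!
# Project CONE (MP_b9f29c_an): NC1, the algebraic part of the nuclearity of the cone
-/

set_option autoImplicit false

open scoped CStarAlgebra ComplexOrder InnerProductSpace

namespace Pool.Agent.N469.CO

namespace NC1Aux

theorem norm_val_le {D : Type} [CStarAlgebra D] (f : Cone D) (s : unitInterval) :
    ‖f.1 s‖ ≤ ‖f‖ :=
  ContinuousMap.norm_coe_le_norm f.1 s

theorem norm_le_of {D : Type} [CStarAlgebra D] (f : Cone D) (C : ℝ) (hC : 0 ≤ C)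
    (h : ∀ s, ‖f.1 s‖ ≤ C) : ‖f‖ ≤ C :=
  (ContinuousMap.norm_le f.1 hC).2 h

theorem sum_val {D : Type} [CStarAlgebra D] {K : ℕ} (g : Fin K → Cone D) (s : unitInterval) :
    (∑ j, g j).1 s = ∑ j, (g j).1 s := by
  have h : ∀ S : Finset (Fin K), (∑ j ∈ S, g j).1 s = ∑ j ∈ S, (g j).1 s := by
    intro S
    induction S using Finset.induction_on with
    | empty => simp
    | insert a S ha ih =>
      rw [Finset.sum_insert ha, Finset.sum_insert ha, ← ih]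
      rfl
  exact h Finset.univ

end NC1Aux

open NC1Aux in
theorem t_nc1 : SNC1 := by
  intro hCPT hBD hCPH D _ _ _ _ _ _ k φ ψ hφ hψ K t h h0 hh hh0 hsum hhz
  obtain ⟨comp, sums, add⟩ := hCPT
  obtain ⟨N, δ0, ρ0, δ, ρ, nρ0, nρ, r00, r0j, rj0, rjj, rij, hnorm⟩ := hBD K k
  obtain ⟨c1, c2, c3, χ, hχ⟩ := hCPH D
  -- the map into the matrices
  have hev : ∀ j : Fin K, ∃ Θ : Cone D →CP D, ∀ f, Θ f = f.1 (t j) := fun j => c3 (t j)
  choose ev hev using hev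
  have hB1 : ∀ j : Fin K, ∃ g : Cone D →CP CStarMatrix (Fin k) (Fin k) ℂ,
      ∀ f, g f = φ (f.1 (t j)) := by
    intro j
    obtain ⟨g, hg⟩ := comp _ _ _ (ev j) φ
    exact ⟨g, fun f => by rw [hg, hev]⟩
  choose b1 hb1 using hB1
  have hB2 : ∀ j : Fin K, ∃ g : Cone D →CP CStarMatrix (Fin N) (Fin N) ℂ,
      ∀ f, g f = δ j (φ (f.1 (t j))) := by
    intro j
    obtain ⟨g, hg⟩ := comp _ _ _ (b1 j) (δ j)
    exact ⟨g, fun f => by rw [hg, hb1]⟩
  choose b2 hb2 using hB2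
  obtain ⟨b3, hb3⟩ := sums _ _ K b2
  obtain ⟨b4, hb4⟩ := comp _ _ _ χ δ0
  obtain ⟨Φ, hΦ⟩ := add _ _ b4 b3
  have hΦf : ∀ f, Φ f = δ0 (χ f) + ∑ j, δ j (φ (f.1 (t j))) := by
    intro f
    rw [hΦ, hb4, hb3]
    congr 1
    exact Finset.sum_congr rfl fun j _ => hb2 j f
  -- the map back
  have hT1 : ∀ j : Fin K, ∃ Θ : D →CP Cone D, ∀ x s, (Θ x).1 s = ((h j s : ℝ) : ℂ) • x :=
    fun j => c1 (h j) (hh j) (hhz j)
  choose T1 hT1 using hT1
  obtain ⟨T0, hT0⟩ := c2 h0 hh0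
  have hC1 : ∀ j : Fin K, ∃ g : CStarMatrix (Fin N) (Fin N) ℂ →CP D,
      ∀ T, g T = ψ (ρ j T) := by
    intro j
    exact comp _ _ _ (ρ j) ψ
  choose d1 hd1 using hC1
  have hC2 : ∀ j : Fin K, ∃ g : CStarMatrix (Fin N) (Fin N) ℂ →CP Cone D,
      ∀ T, g T = T1 j (ψ (ρ j T)) := by
    intro j
    obtain ⟨g, hg⟩ := comp _ _ _ (d1 j) (T1 j)
    exact ⟨g, fun T => by rw [hg, hd1]⟩
  choose d2 hd2 using hC2
  obtain ⟨d3, hd3⟩ := sums _ _ K d2
  obtain ⟨d4, hd4⟩ := comp _ _ _ ρ0 T0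
  obtain ⟨Ψ, hΨ⟩ := add _ _ d4 d3
  have hΨT : ∀ T (s : unitInterval), (Ψ T).1 s =
      ((h0 s : ℝ) : ℂ) • ((ρ0 T) • (1 : D)) + ∑ j, ((h j s : ℝ) : ℂ) • ψ (ρ j T) := by
    intro T s
    have e1 : (Ψ T).1 s = (T0 (ρ0 T)).1 s + (∑ j, d2 j T).1 s := by
      rw [hΨ, hd4, hd3]
      rfl
    rw [e1, hT0, sum_val]
    congr 1
    refine Finset.sum_congr rfl fun j _ => ?_
    rw [hd2, hT1]
  refine ⟨N, Φ, Ψ, ?_, ?_, ?_⟩
  · intro f
    rw [hΦf]
    refine hnorm ‖f‖ (χ f) _ ?_ ?_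
    · have h1 : ‖f.1 0‖ = ‖χ f‖ := by
        rw [hχ f, norm_smul, norm_one, mul_one]
      rw [← h1]
      exact norm_val_le f 0
    · intro j
      exact (hφ _).trans (norm_val_le f _)
  · intro T
    refine norm_le_of _ _ (norm_nonneg _) ?_
    intro s
    rw [hΨT]
    calc ‖((h0 s : ℝ) : ℂ) • ((ρ0 T) • (1 : D)) + ∑ j, ((h j s : ℝ) : ℂ) • ψ (ρ j T)‖
        ≤ ‖((h0 s : ℝ) : ℂ) • ((ρ0 T) • (1 : D))‖ + ‖∑ j, ((h j s : ℝ) : ℂ) • ψ (ρ j T)‖ :=
          norm_add_le _ _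
      _ ≤ h0 s * ‖T‖ + ∑ j, h j s * ‖T‖ := by
          refine add_le_add ?_ ?_
          · rw [norm_smul, norm_smul, norm_one, mul_one, Complex.norm_real,
              Real.norm_of_nonneg (hh0 s)]
            exact mul_le_mul_of_nonneg_left (nρ0 T) (hh0 s)
          · refine (norm_sum_le _ _).trans (Finset.sum_le_sum fun j _ => ?_)
            rw [norm_smul, Complex.norm_real, Real.norm_of_nonneg (hh j s)]
            exact mul_le_mul_of_nonneg_left ((hψ _).trans (nρ j T)) (hh j s)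
      _ = ‖T‖ := by
          rw [← Finset.sum_mul, ← add_mul, hsum s, one_mul]
  · intro f s
    rw [hΨT]
    have e0 : ρ0 (Φ f) = χ f := by
      rw [hΦf, map_add, r00, map_sum, Finset.sum_eq_zero (fun j _ => r0j j _), add_zero]
    have ej : ∀ j, ρ j (Φ f) = φ (f.1 (t j)) := by
      intro j
      rw [hΦf, map_add, rj0, map_sum, zero_add, Finset.sum_eq_single j, rjj]
      · intro i _ hij
        exact rij j i _ (Ne.symm hij)
      · intro hj
        exact absurd (Finset.mem_univ j) hj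
    rw [e0, ← hχ f]
    congr 1
    exact Finset.sum_congr rfl fun j _ => by rw [ej]

end Pool.Agent.N469.CO
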