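import Pool.Agent.N469.CO.Stm

/-!
# Project CONE (MP_b9f29c_an), part NC2 (helper359): the analytic part of the nuclearity of the cone
-/

set_option autoImplicit false

open scoped CStarAlgebra ComplexOrder InnerProductSpace
open Filter Topology

namespace Pool.Agent.N469.CO

namespace NC2Aux

/-- the truncated ramps -/
noncomputable def B (K j : ℕ) : C(unitInterval, ℝ) :=
  ⟨fun s => max 0 (min 1 ((K : ℝ) * (s : ℝ) - j)), by fun_prop⟩

theorem B_apply (K j : ℕ) (s : unitInterval) :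
    B K j s = max 0 (min 1 ((K : ℝ) * (s : ℝ) - j)) := rfl

theorem B_anti (K j : ℕ) (s : unitInterval) : B K (j + 1) s ≤ B K j s := by
  rw [B_apply, B_apply]
  push_cast
  exact max_le_max le_rfl (min_le_min le_rfl (by linarith))

theorem B_le_one (K j : ℕ) (s : unitInterval) : B K j s ≤ 1 := by
  rw [B_apply]
  exact max_le zero_le_one (min_le_left _ _)

theorem B_zero_of_le {K j : ℕ} {s : unitInterval} (h : (K : ℝ) * (s : ℝ) ≤ j) : B K j s = 0 := by
  rw [B_apply]
  exact max_eq_left ((min_le_right _ _).trans (by linarith))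

theorem B_one_of_le {K j : ℕ} {s : unitInterval} (h : (j : ℝ) + 1 ≤ (K : ℝ) * (s : ℝ)) :
    B K j s = 1 := by
  rw [B_apply, min_eq_left (by linarith)]
  exact max_eq_right zero_le_one

theorem unif {D : Type} [CStarAlgebra D] (F : Finset (Cone D)) (ε : ℝ) (hε : 0 < ε) :
    ∃ K : ℕ, 0 < K ∧ ∀ f ∈ F, ∀ s s' : unitInterval, |(s : ℝ) - s'| * K ≤ 1 →
      ‖f.1 s - f.1 s'‖ ≤ ε := by
  have h1 : ∀ f ∈ F, ∀ᶠ K : ℕ in atTop, ∀ s s' : unitInterval, |(s : ℝ) - s'| * K ≤ 1 →
      ‖f.1 s - f.1 s'‖ ≤ ε := by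
    intro f _
    have hu := CompactSpace.uniformContinuous_of_continuous f.1.continuous
    rw [Metric.uniformContinuous_iff] at hu
    obtain ⟨δ, hδ, h⟩ := hu ε hε
    obtain ⟨K0, hK0⟩ := exists_nat_gt (1 / δ)
    filter_upwards [eventually_ge_atTop K0] with K hK s s' hs
    have hK' : 1 / δ < K := lt_of_lt_of_le hK0 (by exact_mod_cast hK)
    have hKp : (0 : ℝ) < K := lt_trans (by positivity) hK'
    have h2 : dist s s' < δ := by
      rw [Subtype.dist_eq, Real.dist_eq]
      rw [div_lt_iff₀ hδ] at hK'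
      by_contra hc
      push Not at hc
      have : K * δ ≤ |(s : ℝ) - s'| * K := by
        rw [mul_comm]
        exact mul_le_mul_of_nonneg_right hc hKp.le
      linarith
    have := h h2
    rw [dist_eq_norm] at this
    exact this.le
  have h2 := (Filter.eventually_all_finset F).2 h1
  obtain ⟨K, hK, hK0⟩ := (h2.and (eventually_gt_atTop 0)).exists
  exact ⟨K, hK0, fun f hf => hK f hf⟩

end NC2Aux

open NC2Aux

theorem t_nc2 : SNC2 := by
  intro hNC D _ _ _ _ _ _ hD F ε hε
  classical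
  obtain ⟨K, hK0, hK⟩ := unif F (ε / 2) (by positivity)
  have hKr : (0 : ℝ) < K := by exact_mod_cast hK0
  -- the nodes
  let t : Fin K → unitInterval := fun j => ⟨((j : ℝ) + 1) / K, by
    constructor
    · positivity
    · rw [div_le_one hKr]
      have := j.isLt
      have h2 : (j.val : ℝ) + 1 ≤ K := by exact_mod_cast this
      exact h2⟩
  let h : Fin K → C(unitInterval, ℝ) := fun j => B K j - B K (j + 1)
  let h0 : C(unitInterval, ℝ) := 1 - B K 0
  have hpos : ∀ j s, 0 ≤ h j s := by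
    intro j s
    show 0 ≤ B K j s - B K (j + 1) s
    linarith [B_anti K j s]
  have h0pos : ∀ s, 0 ≤ h0 s := by
    intro s
    show 0 ≤ 1 - B K 0 s
    linarith [B_le_one K 0 s]
  have hsum : ∀ s, h0 s + ∑ j, h j s = 1 := by
    intro s
    have e1 : ∑ j : Fin K, h j s = ∑ j ∈ Finset.range K, (B K j s - B K (j + 1) s) :=
      Fin.sum_univ_eq_sum_range (fun j => B K j s - B K (j + 1) s) K
    have e2 : B K K s = 0 := B_zero_of_le (by
      have := s.2.2
      nlinarith)
    rw [e1, Finset.sum_range_sub', e2]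
    show 1 - B K 0 s + _ = 1
    ring
  have hzero : ∀ j, h j 0 = 0 := by
    intro j
    show B K j 0 - B K (j + 1) 0 = 0
    rw [B_zero_of_le (by simp), B_zero_of_le (by simp; positivity)]
    ring
  have hnear : ∀ j s, h j s ≠ 0 → |((t j : unitInterval) : ℝ) - s| * K ≤ 1 := by
    intro j s hne
    have hne' : B K j s - B K (j + 1) s ≠ 0 := hne
    have a1 : (j : ℝ) < K * s := by
      by_contra hc
      push Not at hc
      apply hne'
      rw [B_zero_of_le hc, B_zero_of_le (by push_cast; linarith)]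
      ring
    have a2 : (K : ℝ) * s < j + 2 := by
      by_contra hc
      push Not at hc
      apply hne'
      rw [B_one_of_le (by linarith), B_one_of_le (by push_cast; linarith)]
      ring
    have a3 : |((t j : unitInterval) : ℝ) - s| * K = |((j : ℝ) + 1) - K * s| := by
      have : ((t j : unitInterval) : ℝ) = ((j : ℝ) + 1) / K := rfl
      rw [this]
      conv_lhs => rw [← abs_of_pos hKr, ← abs_mul, abs_of_pos hKr]
      congr 1
      field_simp
    rw [a3, abs_le]
    constructor <;> linarith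
  have h0near : ∀ s, h0 s ≠ 0 → |((0 : unitInterval) : ℝ) - s| * K ≤ 1 := by
    intro s hne
    have hne' : 1 - B K 0 s ≠ 0 := hne
    have a2 : (K : ℝ) * s < 1 := by
      by_contra hc
      push Not at hc
      apply hne'
      rw [B_one_of_le (by simpa using hc)]
      ring
    have h3 := s.2.1
    have a4 : |((0 : unitInterval) : ℝ) - s| = s := by
      show |(0 : ℝ) - s| = s
      rw [zero_sub, abs_neg, abs_of_nonneg h3]
    rw [a4]
    linarith
  obtain ⟨k, φ, ψ, hφ, hψ, happ⟩ := hD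
    ((F ×ˢ (Finset.univ : Finset (Fin K))).image (fun p => p.1.1 (t p.2))) (ε / 2) (by positivity)
  obtain ⟨N, Φ, Ψ, hΦ, hΨ, hform⟩ := hNC D k φ ψ hφ hψ K t h h0 hpos h0pos hsum hzero
  refine ⟨N, Φ, Ψ, hΦ, hΨ, ?_⟩
  intro f hf
  have key : ‖((Ψ (Φ f) - f : Cone D) : C(unitInterval, D))‖ ≤ ε := by
    rw [ContinuousMap.norm_le _ hε.le]
    intro s
    have e0 : ((Ψ (Φ f) - f : Cone D) : C(unitInterval, D)) s = (Ψ (Φ f)).1 s - f.1 s := rfl
    have e1 : f.1 s = ((h0 s : ℝ) : ℂ) • f.1 s + ∑ j, ((h j s : ℝ) : ℂ) • f.1 s := by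
      rw [← Finset.sum_smul, ← add_smul]
      have : ((h0 s : ℝ) : ℂ) + ∑ j, ((h j s : ℝ) : ℂ) = 1 := by
        have := hsum s
        exact_mod_cast congrArg (fun r : ℝ => (r : ℂ)) this
      rw [this, one_smul]
    have e2 : (Ψ (Φ f)).1 s - f.1 s = ((h0 s : ℝ) : ℂ) • (f.1 0 - f.1 s) +
        ∑ j, ((h j s : ℝ) : ℂ) • (ψ (φ (f.1 (t j))) - f.1 s) := by
      rw [hform f s]
      conv_lhs => rw [e1]
      simp only [smul_sub, Finset.sum_sub_distrib]
      abel
    rw [e0, e2]
    have n0 : ‖((h0 s : ℝ) : ℂ) • (f.1 0 - f.1 s)‖ ≤ h0 s * ε := by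
      rw [norm_smul, Complex.norm_real, Real.norm_of_nonneg (h0pos s)]
      by_cases hz : h0 s = 0
      · rw [hz]; simp
      · have := hK f hf 0 s (h0near s hz)
        exact mul_le_mul_of_nonneg_left (by linarith) (h0pos s)
    have nj : ∀ j, ‖((h j s : ℝ) : ℂ) • (ψ (φ (f.1 (t j))) - f.1 s)‖ ≤ h j s * ε := by
      intro j
      rw [norm_smul, Complex.norm_real, Real.norm_of_nonneg (hpos j s)]
      by_cases hz : h j s = 0
      · rw [hz]; simp
      · have b1 := hK f hf (t j) s (hnear j s hz)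
        have b2 := happ (f.1 (t j)) (Finset.mem_image.2 ⟨(f, j), by simp [hf], rfl⟩)
        have b3 : ‖ψ (φ (f.1 (t j))) - f.1 s‖ ≤ ‖ψ (φ (f.1 (t j))) - f.1 (t j)‖ +
            ‖f.1 (t j) - f.1 s‖ := by
          have : ψ (φ (f.1 (t j))) - f.1 s =
            (ψ (φ (f.1 (t j))) - f.1 (t j)) + (f.1 (t j) - f.1 s) := by abel
          rw [this]
          exact norm_add_le _ _
        exact mul_le_mul_of_nonneg_left (by linarith) (hpos j s)
    calc _ ≤ ‖((h0 s : ℝ) : ℂ) • (f.1 0 - f.1 s)‖ +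
          ‖∑ j, ((h j s : ℝ) : ℂ) • (ψ (φ (f.1 (t j))) - f.1 s)‖ := norm_add_le _ _
      _ ≤ h0 s * ε + ∑ j, h j s * ε := by
          refine add_le_add n0 ((norm_sum_le _ _).trans (Finset.sum_le_sum fun j _ => nj j))
      _ = ε := by
          rw [← Finset.sum_mul, ← add_mul, hsum s, one_mul]
  exact key

end Pool.Agent.N469.CO
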