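import Pool.Agent.N469.CO.Stm

/-!
# Project CONE (MP_b9f29c_an): the Cuntz algebra `O_2` is nuclear
-/

set_option autoImplicit false

open scoped CStarAlgebra ComplexOrder InnerProductSpace
open Filter Topology

namespace Pool.Agent.N469.CO

namespace O2NAux

variable {H : Type} [NormedAddCommGroup H] [InnerProductSpace ℂ H] [CompleteSpace H]

/-- the average over the words -/
noncomputable def lam (c : Cz H) (n : ℕ) (x : H →L[ℂ] H) : H →L[ℂ] H :=
  ((n : ℂ)⁻¹) • ∑ m ∈ Finset.range (2 ^ n), ∑ m' ∈ Finset.range (2 ^ n),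
    ⟪c.e m, x (c.e m')⟫_ℂ • (w c m * star (w c m'))

theorem lam_add (c : Cz H) (n : ℕ) (x y : H →L[ℂ] H) :
    lam c n (x + y) = lam c n x + lam c n y := by
  unfold lam
  rw [← smul_add, ← Finset.sum_add_distrib]
  congr 1
  refine Finset.sum_congr rfl fun m _ => ?_
  rw [← Finset.sum_add_distrib]
  refine Finset.sum_congr rfl fun m' _ => ?_
  have : (x + y) (c.e m') = x (c.e m') + y (c.e m') := rfl
  rw [this, inner_add_right, add_smul]

theorem lam_smul (c : Cz H) (n : ℕ) (a : ℂ) (x : H →L[ℂ] H) :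
    lam c n (a • x) = a • lam c n x := by
  unfold lam
  rw [smul_comm a]
  congr 1
  rw [Finset.smul_sum]
  refine Finset.sum_congr rfl fun m _ => ?_
  rw [Finset.smul_sum]
  refine Finset.sum_congr rfl fun m' _ => ?_
  have : (a • x) (c.e m') = a • x (c.e m') := rfl
  rw [this, inner_smul_right, smul_smul]

theorem lam_zero (c : Cz H) (n : ℕ) : lam c n 0 = 0 := by
  have := lam_smul c n 0 0
  rwa [zero_smul, zero_smul] at this

theorem lam_sub (c : Cz H) (n : ℕ) (x y : H →L[ℂ] H) :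
    lam c n (x - y) = lam c n x - lam c n y := by
  have h := lam_add c n (x - y) y
  rw [sub_add_cancel] at h
  rw [h, add_sub_cancel_right]

theorem lam_span (h4 : SW4') (c : Cz H) (y : H →L[ℂ] H)
    (hy : y ∈ (Submodule.span ℂ
      (Set.range fun p : ℕ × ℕ => w c p.1 * star (w c p.2)) : Submodule ℂ (H →L[ℂ] H))) :
    Tendsto (fun n => lam c n y) atTop (𝓝 y) := by
  induction hy using Submodule.span_induction with
  | mem x hx =>
    obtain ⟨⟨a, b⟩, rfl⟩ := hx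
    exact h4 H c a b
  | zero =>
    simp only [lam_zero]
    exact tendsto_const_nhds
  | add x y _ _ hx hy =>
    simp only [lam_add]
    exact hx.add hy
  | smul a x _ hx =>
    simp only [lam_smul]
    exact hx.const_smul a

/-- the maps through the matrices -/
theorem maps (h1 : SW1) (h3 : SW3') (hpsi : SPsi) (hphi : SPhi) (c : Cz H)
    [PartialOrder (O2 c)] [StarOrderedRing (O2 c)] (n : ℕ) (hn : 1 ≤ n) :
    ∃ (k : ℕ) (φ : (O2 c) →CP CStarMatrix (Fin k) (Fin k) ℂ)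
      (ψ : CStarMatrix (Fin k) (Fin k) ℂ →CP (O2 c)),
      (∀ x, ‖φ x‖ ≤ ‖x‖) ∧ (∀ T, ‖ψ T‖ ≤ ‖T‖) ∧
      ∀ x : O2 c, (ψ (φ x) : H →L[ℂ] H) = lam c n (x : H →L[ℂ] H) := by
  have hw1 : w c 1 = 1 := by rw [w]
  have hmem : ∀ i, w c i ∈ O2 c := fun i => by
    have := (h3 H c).1 i 1
    rwa [hw1, star_one, mul_one] at this
  have hn0 : (0 : ℝ) < n := by exact_mod_cast hn
  set r : ℂ := ((Real.sqrt n : ℝ) : ℂ)⁻¹ with hr
  have hrr : star r * r = (n : ℂ)⁻¹ := by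
    have e1 : star r = r := by
      rw [hr, ← Complex.ofReal_inv]
      exact Complex.conj_ofReal _
    rw [e1, hr, ← mul_inv, ← Complex.ofReal_mul, Real.mul_self_sqrt hn0.le]
    simp
  set g : Fin (2 ^ n) → O2 c := fun i => r • star (⟨w c i, hmem i⟩ : O2 c) with hg
  have hgg : ∀ i j : Fin (2 ^ n), ((star (g i) * g j : O2 c) : H →L[ℂ] H)
      = (n : ℂ)⁻¹ • (w c i * star (w c j)) := fun i j => by
    have e : ((star (g i) * g j : O2 c) : H →L[ℂ] H)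
        = star (r • star (w c i)) * (r • star (w c j)) := rfl
    rw [e, star_smul, star_star, smul_mul_smul_comm, hrr]
  have hsum : ((∑ i, star (g i) * g i : O2 c) : H →L[ℂ] H) = 1 := by
    rw [AddSubmonoidClass.coe_finsetSum]
    simp only [hgg]
    rw [← Finset.smul_sum, Fin.sum_univ_eq_sum_range (fun m => w c m * star (w c m)) (2 ^ n),
      (h1 H c).2.2.2.2 n, smul_smul, inv_mul_cancel₀, one_smul]
    exact_mod_cast (by omega : n ≠ 0)
  have hnorm : ‖∑ i, star (g i) * g i‖ ≤ 1 := by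
    have e : ‖∑ i, star (g i) * g i‖ = ‖((∑ i, star (g i) * g i : O2 c) : H →L[ℂ] H)‖ := rfl
    rw [e, hsum]
    exact ContinuousLinearMap.norm_id_le
  obtain ⟨ψ, hψ, hψn⟩ := hpsi (O2 c) (2 ^ n) g hnorm
  obtain ⟨φ, hφ, hφn⟩ := hphi (O2 c) H (O2 c).subtype (2 ^ n) (fun i => c.e i)
    (c.orth.comp (fun i : Fin (2 ^ n) => (i : ℕ)) Fin.val_injective)
  refine ⟨2 ^ n, φ, ψ, hφn, hψn, fun x => ?_⟩
  rw [hψ]
  simp only [hφ]
  have e2 : ((∑ i : Fin (2 ^ n), ∑ j : Fin (2 ^ n),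
      ⟪c.e i, (O2 c).subtype x (c.e j)⟫_ℂ • (star (g i) * g j) : O2 c) : H →L[ℂ] H)
      = ∑ i : Fin (2 ^ n), ∑ j : Fin (2 ^ n), (n : ℂ)⁻¹ • (⟪c.e i, (x : H →L[ℂ] H) (c.e j)⟫_ℂ •
        (w c i * star (w c j))) := by
    rw [AddSubmonoidClass.coe_finsetSum]
    refine Finset.sum_congr rfl fun i _ => ?_
    rw [AddSubmonoidClass.coe_finsetSum]
    refine Finset.sum_congr rfl fun j _ => ?_
    have e3 : ((⟪c.e i, (O2 c).subtype x (c.e j)⟫_ℂ • (star (g i) * g j) : O2 c) : H →L[ℂ] H)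
        = ⟪c.e i, (x : H →L[ℂ] H) (c.e j)⟫_ℂ • ((star (g i) * g j : O2 c) : H →L[ℂ] H) := rfl
    rw [e3, hgg, smul_comm]
  refine e2.trans ?_
  unfold lam
  simp only [← Finset.smul_sum]
  congr 1
  rw [← Fin.sum_univ_eq_sum_range (fun m => ∑ m' ∈ Finset.range (2 ^ n),
    ⟪c.e m, (x : H →L[ℂ] H) (c.e m')⟫_ℂ • (w c m * star (w c m'))) (2 ^ n)]
  refine Finset.sum_congr rfl fun i _ => ?_
  exact Fin.sum_univ_eq_sum_range (fun m' =>
    ⟪c.e i, (x : H →L[ℂ] H) (c.e m')⟫_ℂ • (w c i * star (w c m'))) (2 ^ n)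

theorem lam_norm (h1 : SW1) (h3 : SW3') (hpsi : SPsi) (hphi : SPhi) (c : Cz H)
    [PartialOrder (O2 c)] [StarOrderedRing (O2 c)] (n : ℕ) (hn : 1 ≤ n) (x : H →L[ℂ] H)
    (hx : x ∈ O2 c) : ‖lam c n x‖ ≤ ‖x‖ := by
  obtain ⟨k, φ, ψ, h5, h6, h7⟩ := maps h1 h3 hpsi hphi c n hn
  rw [← h7 ⟨x, hx⟩]
  exact (h6 _).trans (h5 _)

theorem lam_tendsto (h1 : SW1) (h3 : SW3') (h4 : SW4') (hpsi : SPsi) (hphi : SPhi) (c : Cz H)
    [PartialOrder (O2 c)] [StarOrderedRing (O2 c)] (x : H →L[ℂ] H) (hx : x ∈ O2 c) :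
    Tendsto (fun n => lam c n x) atTop (𝓝 x) := by
  rw [Metric.tendsto_atTop]
  intro ε hε
  obtain ⟨y, hy, hxy⟩ := Metric.mem_closure_iff.mp ((h3 H c).2 x hx) (ε / 3) (by positivity)
  obtain ⟨n₀, hn₀⟩ := Metric.tendsto_atTop.mp (lam_span h4 c y hy) (ε / 3) (by positivity)
  have hyO : y ∈ O2 c := by
    have hle : (Submodule.span ℂ (Set.range fun p : ℕ × ℕ => w c p.1 * star (w c p.2)) :
        Submodule ℂ (H →L[ℂ] H)) ≤ Subalgebra.toSubmodule (O2 c).toSubalgebra := by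
      refine Submodule.span_le.mpr ?_
      rintro _ ⟨⟨a, b⟩, rfl⟩
      exact (h3 H c).1 a b
    exact hle hy
  refine ⟨max n₀ 1, fun n hn => ?_⟩
  have e1 := hn₀ n ((le_max_left _ _).trans hn)
  have e2 := lam_norm h1 h3 hpsi hphi c n ((le_max_right _ _).trans hn) (x - y)
    (sub_mem hx hyO)
  rw [lam_sub] at e2
  rw [dist_eq_norm] at *
  have e3 : lam c n x - x = (lam c n x - lam c n y) + (lam c n y - y) - (x - y) := by abel
  rw [e3]
  calc ‖(lam c n x - lam c n y) + (lam c n y - y) - (x - y)‖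
      ≤ ‖lam c n x - lam c n y‖ + ‖lam c n y - y‖ + ‖x - y‖ :=
        (norm_sub_le _ _).trans (add_le_add_left (norm_add_le _ _) _)
    _ < ε := by linarith

end O2NAux

open O2NAux in
/-- `O_2` is nuclear -/
theorem t_o2n : SO2N := by
  intro h1 h3 h4 hpsi hphi H _ _ _ c _ _ F ε hε
  have hev : ∀ x ∈ F, ∀ᶠ n : ℕ in atTop, ‖lam c n (x : H →L[ℂ] H) - x‖ ≤ ε := fun x _ => by
    have ht := lam_tendsto h1 h3 h4 hpsi hphi c (x : H →L[ℂ] H) x.2
    obtain ⟨n₀, hn₀⟩ := Metric.tendsto_atTop.mp ht ε hε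
    filter_upwards [eventually_ge_atTop n₀] with n hn
    have := hn₀ n hn
    rw [dist_eq_norm] at this
    exact this.le
  have hall : ∀ᶠ n : ℕ in atTop, ∀ x ∈ F, ‖lam c n (x : H →L[ℂ] H) - x‖ ≤ ε :=
    (Filter.eventually_all_finset F).mpr hev
  obtain ⟨n, hn, hn1⟩ := (hall.and (eventually_ge_atTop 1)).exists
  obtain ⟨k, φ, ψ, h5, h6, h7⟩ := maps h1 h3 hpsi hphi c n hn1
  refine ⟨k, φ, ψ, h5, h6, fun x hx => ?_⟩
  have e : ‖ψ (φ x) - x‖ = ‖(ψ (φ x) : H →L[ℂ] H) - (x : H →L[ℂ] H)‖ := rfl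
  rw [e, h7]
  exact hn x hx

end Pool.Agent.N469.CO
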