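import Pool.Agent.N469.CO.Stm

/-!
Project CONE, part O2S: `O_2` is separable (helper99).
-/

set_option autoImplicit false

open scoped CStarAlgebra ComplexOrder InnerProductSpace

namespace Pool.Agent.N469.CO

theorem t_o2s : SO2S := by
  intro h3 H _ _ _ c
  have h1 : TopologicalSpace.IsSeparable
      (Set.range fun p : ℕ × ℕ => w c p.1 * star (w c p.2)) :=
    (Set.countable_range _).isSeparable
  have h2 : TopologicalSpace.IsSeparable ((Submodule.span ℂ
      (Set.range fun p : ℕ × ℕ => w c p.1 * star (w c p.2)) : Submodule ℂ (H →L[ℂ] H)) :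
        Set (H →L[ℂ] H)) := h1.span
  have h4 : TopologicalSpace.IsSeparable (O2 c : Set (H →L[ℂ] H)) :=
    h2.closure.mono fun x hx => (h3 H c).2 x hx
  exact h4.separableSpace

end Pool.Agent.N469.CO
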