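import Pool.Agent.N469.CO.Stm
import Pool.Agent.W661.Nrm15

/-!
# Project CONE (MP_b9f29c_an): the part PHI

The matrix coefficients of a representation with respect to an orthonormal family form a
completely positive contraction.
-/

set_option autoImplicit false

open scoped CStarAlgebra ComplexOrder InnerProductSpace
open Filter Topology

namespace Pool.Agent.N469.CO

namespace PhiAux

open Pool.Agent.W661.Nrm

variable {A : Type} [CStarAlgebra A] [PartialOrder A] [StarOrderedRing A]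
  {H : Type} [NormedAddCommGroup H] [InnerProductSpace ℂ H] [CompleteSpace H] {N : ℕ}

/-- the linear map of a finite family -/
noncomputable def V0 (e : Fin N → H) : EuclideanSpace ℂ (Fin N) →ₗ[ℂ] H where
  toFun v := ∑ i, v i • e i
  map_add' v w := by
    rw [← Finset.sum_add_distrib]
    refine Finset.sum_congr rfl fun i _ => ?_
    rw [PiLp.add_apply, add_smul]
  map_smul' c v := by
    rw [RingHom.id_apply, Finset.smul_sum]
    refine Finset.sum_congr rfl fun i _ => ?_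
    rw [PiLp.smul_apply, smul_eq_mul, mul_smul]

omit [CompleteSpace H] in
lemma V0_apply (e : Fin N → H) (v : EuclideanSpace ℂ (Fin N)) : V0 e v = ∑ i, v i • e i := rfl

omit [CompleteSpace H] in
lemma norm_V0 (e : Fin N → H) (he : Orthonormal ℂ e) (v : EuclideanSpace ℂ (Fin N)) :
    ‖V0 e v‖ = ‖v‖ := by
  have h1 : ⟪V0 e v, V0 e v⟫_ℂ = ⟪v, v⟫_ℂ := by
    rw [V0_apply, he.inner_sum, PiLp.inner_apply]
    refine Finset.sum_congr rfl fun i _ => ?_
    rw [RCLike.inner_apply, mul_comm]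
  rw [@norm_eq_sqrt_re_inner ℂ, h1, ← @norm_eq_sqrt_re_inner ℂ]

/-- the isometry of an orthonormal family -/
noncomputable def V (e : Fin N → H) (he : Orthonormal ℂ e) : EuclideanSpace ℂ (Fin N) →L[ℂ] H :=
  (V0 e).mkContinuous 1 fun v => by rw [norm_V0 e he, one_mul]

omit [CompleteSpace H] in
lemma V_apply (e : Fin N → H) (he : Orthonormal ℂ e) (v : EuclideanSpace ℂ (Fin N)) :
    V e he v = ∑ i, v i • e i := rfl

omit [CompleteSpace H] in
lemma norm_V_le (e : Fin N → H) (he : Orthonormal ℂ e) : ‖V e he‖ ≤ 1 :=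
  LinearMap.mkContinuous_norm_le _ zero_le_one _

omit [CompleteSpace H] in
lemma V_single (e : Fin N → H) (he : Orthonormal ℂ e) (j : Fin N) :
    V e he (EuclideanSpace.single j (1 : ℂ)) = e j := by
  rw [V_apply, Finset.sum_eq_single j]
  · simp
  · intro i _ hij
    simp [hij]
  · intro h
    exact absurd (Finset.mem_univ _) h

/-- the compression -/
noncomputable def Th (π : A →⋆ₐ[ℂ] (H →L[ℂ] H)) (e : Fin N → H) (he : Orthonormal ℂ e) :
    A →ₗ[ℂ] (EuclideanSpace ℂ (Fin N) →L[ℂ] EuclideanSpace ℂ (Fin N)) where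
  toFun x := (ContinuousLinearMap.adjoint (V e he)).comp ((π x).comp (V e he))
  map_add' x y := by
    ext1 v
    simp only [ContinuousLinearMap.comp_apply, map_add, add_apply]
  map_smul' c x := by
    ext1 v
    simp only [ContinuousLinearMap.comp_apply, map_smul, smul_apply,
      RingHom.id_apply]

omit [PartialOrder A] [StarOrderedRing A] in
lemma inner_Th (π : A →⋆ₐ[ℂ] (H →L[ℂ] H)) (e : Fin N → H) (he : Orthonormal ℂ e) (x : A)
    (u v : EuclideanSpace ℂ (Fin N)) :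
    ⟪u, Th π e he x v⟫_ℂ = ⟪V e he u, π x (V e he v)⟫_ℂ := by
  show ⟪u, (ContinuousLinearMap.adjoint (V e he)) (π x (V e he v))⟫_ℂ = _
  rw [ContinuousLinearMap.adjoint_inner_right]

omit [PartialOrder A] [StarOrderedRing A] in
lemma norm_Th_le (π : A →⋆ₐ[ℂ] (H →L[ℂ] H)) (e : Fin N → H) (he : Orthonormal ℂ e) (x : A) :
    ‖Th π e he x‖ ≤ ‖x‖ := by
  have h1 : ‖ContinuousLinearMap.adjoint (V e he)‖ ≤ 1 := by
    rw [LinearIsometryEquiv.norm_map]
    exact norm_V_le e he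
  have h2 : ‖(π x).comp (V e he)‖ ≤ ‖x‖ := by
    refine (ContinuousLinearMap.opNorm_comp_le _ _).trans ?_
    have h3 : ‖π x‖ ≤ ‖x‖ := NonUnitalStarAlgHom.norm_apply_le π x
    calc ‖π x‖ * ‖V e he‖ ≤ ‖x‖ * 1 := by
          gcongr
          exact norm_V_le e he
      _ = ‖x‖ := mul_one _
  show ‖(ContinuousLinearMap.adjoint (V e he)).comp ((π x).comp (V e he))‖ ≤ ‖x‖
  refine (ContinuousLinearMap.opNorm_comp_le _ _).trans ?_
  calc ‖ContinuousLinearMap.adjoint (V e he)‖ * ‖(π x).comp (V e he)‖ ≤ 1 * ‖x‖ := by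
        gcongr
    _ = ‖x‖ := one_mul _

set_option backward.isDefEq.respectTransparency false in
lemma Th_form (π : A →⋆ₐ[ℂ] (H →L[ℂ] H)) (e : Fin N → H) (he : Orthonormal ℂ e) (k : ℕ)
    (M : CStarMatrix (Fin k) (Fin k) A) (hM : 0 ≤ M) (v : Fin k → EuclideanSpace ℂ (Fin N)) :
    0 ≤ ∑ i, ∑ j, ⟪v i, Th π e he (M i j) (v j)⟫_ℂ := by
  obtain ⟨Y, rfl⟩ := (CStarAlgebra.nonneg_iff_eq_star_mul_self).1 hM
  have h1 : ∑ i, ∑ j, ⟪v i, Th π e he ((star Y * Y) i j) (v j)⟫_ℂ =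
      ∑ r, ⟪∑ i, π (Y r i) (V e he (v i)), ∑ j, π (Y r j) (V e he (v j))⟫_ℂ := by
    simp only [sum_inner, inner_sum]
    have h2 : ∀ i j, ⟪v i, Th π e he ((star Y * Y) i j) (v j)⟫_ℂ =
        ∑ r, ⟪π (Y r i) (V e he (v i)), π (Y r j) (V e he (v j))⟫_ℂ := by
      intro i j
      rw [inner_Th, CStarMatrix.mul_apply, map_sum, sum_apply, inner_sum]
      refine Finset.sum_congr rfl fun r _ => ?_
      rw [CStarMatrix.star_apply, map_mul, map_star, ContinuousLinearMap.star_eq_adjoint]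
      show ⟪V e he (v i), (ContinuousLinearMap.adjoint (π (Y r i))) (π (Y r j) (V e he (v j)))⟫_ℂ
        = _
      rw [ContinuousLinearMap.adjoint_inner_right]
    simp only [h2]
    have h3 : ∀ x : Fin k, ∑ y, ∑ r, ⟪π (Y r x) (V e he (v x)), π (Y r y) (V e he (v y))⟫_ℂ =
        ∑ r, ∑ y, ⟪π (Y r x) (V e he (v x)), π (Y r y) (V e he (v y))⟫_ℂ :=
      fun x => Finset.sum_comm
    simp only [h3]
    rw [Finset.sum_comm]
    refine Finset.sum_congr rfl fun r _ => ?_
    rw [Finset.sum_comm]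
  rw [h1]
  refine Finset.sum_nonneg fun r _ => ?_
  rw [inner_self_eq_norm_sq_to_K, ← RCLike.ofReal_pow]
  have h4 : (0 : ℝ) ≤ ‖∑ i, π (Y r i) (V e he (v i))‖ ^ 2 := by positivity
  exact Complex.zero_le_real.2 h4

/-- operators on the Euclidean space as matrices -/
noncomputable def Psi (N : ℕ) :
    (EuclideanSpace ℂ (Fin N) →L[ℂ] EuclideanSpace ℂ (Fin N)) ≃⋆ₐ[ℂ]
      CStarMatrix (Fin N) (Fin N) ℂ :=
  (Matrix.toEuclideanCLM (n := Fin N) (𝕜 := ℂ)).symm.trans CStarMatrix.ofMatrixStarAlgEquiv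

lemma Psi_apply (T : EuclideanSpace ℂ (Fin N) →L[ℂ] EuclideanSpace ℂ (Fin N)) (i j : Fin N) :
    Psi N T i j = ⟪EuclideanSpace.single i (1 : ℂ), T (EuclideanSpace.single j (1 : ℂ))⟫_ℂ := by
  obtain ⟨M, rfl⟩ := (Matrix.toEuclideanCLM (n := Fin N) (𝕜 := ℂ)).surjective T
  rw [EuclideanSpace.inner_single_left, map_one, one_mul]
  show ((Matrix.toEuclideanCLM (n := Fin N) (𝕜 := ℂ)).symm
    (Matrix.toEuclideanCLM (n := Fin N) (𝕜 := ℂ) M)) i j = _
  rw [StarAlgEquiv.symm_apply_apply]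
  have h1 := congrFun (Matrix.ofLp_toEuclideanCLM M (EuclideanSpace.single j (1 : ℂ))) i
  refine Eq.trans ?_ h1.symm
  rw [PiLp.ofLp_single, Matrix.mulVec_single_one]
  rfl

end PhiAux

open PhiAux in
theorem t_phi : SPhi := by
  intro A _ _ _ H _ _ _ π N e he
  refine ⟨{ toLinearMap := (Psi N).toAlgEquiv.toLinearMap ∘ₗ Th π e he
            map_cstarMatrix_nonneg' := ?_ }, ?_, ?_⟩
  · intro k M hM
    have h1 : 0 ≤ M.map (Th π e he) :=
      Pool.Agent.W661.Nrm.cp_of_inner (Th π e he) (Th_form π e he) k M hM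
    exact CompletelyPositiveMapClass.map_cstarMatrix_nonneg' (Psi N) k _ h1
  · intro x i j
    show Psi N (Th π e he x) i j = _
    rw [Psi_apply, inner_Th, V_single, V_single]
  · intro x
    show ‖Psi N (Th π e he x)‖ ≤ ‖x‖
    exact (NonUnitalStarAlgHom.norm_apply_le (Psi N) _).trans (norm_Th_le π e he x)

end Pool.Agent.N469.CO
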