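import Pool.Agent.N469.CO.Stm
import Pool.Agent.W661.Nrm15

/-!
# Project CONE (MP_b9f29c_an), part PSI (helper771): `T ↦ ∑ T i j g_i^* g_j` is a completely
positive contraction
-/

set_option autoImplicit false

open scoped CStarAlgebra ComplexOrder InnerProductSpace
open Filter Topology

namespace Pool.Agent.N469.CO

namespace PsiAux

open Pool.Agent.W661.Nrm

variable {A : Type} [CStarAlgebra A] {N : ℕ} (g : Fin N → A)

/-- the map as a linear map -/
noncomputable def psi : CStarMatrix (Fin N) (Fin N) ℂ →ₗ[ℂ] A where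
  toFun T := ∑ i, ∑ j, T i j • (star (g i) * g j)
  map_add' S T := by
    rw [← Finset.sum_add_distrib]
    refine Finset.sum_congr rfl fun i _ => ?_
    rw [← Finset.sum_add_distrib]
    refine Finset.sum_congr rfl fun j _ => ?_
    rw [CStarMatrix.add_apply, add_smul]
  map_smul' c T := by
    rw [Finset.smul_sum]
    refine Finset.sum_congr rfl fun i _ => ?_
    rw [Finset.smul_sum]
    refine Finset.sum_congr rfl fun j _ => ?_
    rw [CStarMatrix.smul_apply, smul_smul, RingHom.id_apply, smul_eq_mul]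

theorem psi_apply (T : CStarMatrix (Fin N) (Fin N) ℂ) :
    psi g T = ∑ i, ∑ j, T i j • (star (g i) * g j) := rfl

theorem psi_star (T : CStarMatrix (Fin N) (Fin N) ℂ) : star (psi g T) = psi g (star T) := by
  rw [psi_apply, psi_apply, star_sum, Finset.sum_comm]
  simp only [star_sum]
  rw [Finset.sum_comm]
  rw [Finset.sum_comm]
  refine Finset.sum_congr rfl fun i _ => Finset.sum_congr rfl fun j _ => ?_
  rw [star_smul, star_mul, star_star, CStarMatrix.star_apply]

/-- the value at `X^* Y` -/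
theorem psi_mul (X Y : CStarMatrix (Fin N) (Fin N) ℂ) : psi g (star X * Y) =
    ∑ l, star (∑ i, X l i • g i) * (∑ j, Y l j • g j) := by
  have h1 : ∀ l, star (∑ i, X l i • g i) * (∑ j, Y l j • g j) =
      ∑ i, ∑ j, (star (X l i) * Y l j) • (star (g i) * g j) := by
    intro l
    rw [star_sum, Finset.sum_mul]
    refine Finset.sum_congr rfl fun i _ => ?_
    rw [Finset.mul_sum]
    refine Finset.sum_congr rfl fun j _ => ?_
    rw [star_smul, smul_mul_smul_comm]
  have h2 : ∑ l, ∑ i, ∑ j, (star (X l i) * Y l j) • (star (g i) * g j) =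
      ∑ i, ∑ j, ∑ l, (star (X l i) * Y l j) • (star (g i) * g j) := by
    rw [Finset.sum_comm]
    exact Finset.sum_congr rfl fun i _ => Finset.sum_comm
  rw [psi_apply, Finset.sum_congr rfl fun l _ => h1 l, h2]
  refine Finset.sum_congr rfl fun i _ => Finset.sum_congr rfl fun j _ => ?_
  rw [← Finset.sum_smul, CStarMatrix.mul_apply]
  rfl

theorem sum_four {P R L : Type} [Fintype P] [Fintype R] [Fintype L] (F : P → P → R → L → A) :
    ∑ p, ∑ q, ∑ r, ∑ l, F p q r l = ∑ r, ∑ l, ∑ p, ∑ q, F p q r l := by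
  calc ∑ p, ∑ q, ∑ r, ∑ l, F p q r l
      = ∑ p, ∑ r, ∑ q, ∑ l, F p q r l := Finset.sum_congr rfl fun p _ => Finset.sum_comm
    _ = ∑ r, ∑ p, ∑ q, ∑ l, F p q r l := Finset.sum_comm
    _ = ∑ r, ∑ p, ∑ l, ∑ q, F p q r l :=
      Finset.sum_congr rfl fun r _ => Finset.sum_congr rfl fun p _ => Finset.sum_comm
    _ = ∑ r, ∑ l, ∑ p, ∑ q, F p q r l := Finset.sum_congr rfl fun r _ => Finset.sum_comm

theorem form_eq {P R L : Type} [Fintype P] [Fintype R] [Fintype L] (v : R → L → P → A)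
    (z : P → A) : ∑ p, ∑ q, star (z p) * (∑ r, ∑ l, star (v r l p) * v r l q) * z q =
      ∑ r, ∑ l, star (∑ p, v r l p * z p) * (∑ q, v r l q * z q) := by
  simp only [Finset.mul_sum, Finset.sum_mul, star_sum, star_mul]
  rw [sum_four]
  refine Finset.sum_congr rfl fun r _ => Finset.sum_congr rfl fun l _ => ?_
  rw [Finset.sum_comm]
  refine Finset.sum_congr rfl fun q _ => Finset.sum_congr rfl fun p _ => ?_
  simp only [mul_assoc]

/-- the map as a form -/
theorem psi_bil (T : CStarMatrix (Fin N) (Fin N) ℂ) :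
    psi g T = bil (T.map (algebraMap ℂ A)) g g := by
  rw [psi_apply]
  unfold bil
  refine Finset.sum_congr rfl fun i _ => Finset.sum_congr rfl fun j _ => ?_
  rw [CStarMatrix.map_apply, ← Algebra.commutes, mul_assoc, ← Algebra.smul_def]

variable [PartialOrder A] [StarOrderedRing A]

/-- the scalars in `A` -/
noncomputable def scal : ℂ →⋆ₙₐ[ℂ] A :=
  ((StarAlgHom.ofId ℂ A : ℂ →⋆ₐ[ℂ] A) : ℂ →⋆ₙₐ[ℂ] A)

theorem norm_psi_le (hg : ‖∑ i, star (g i) * g i‖ ≤ 1) (T : CStarMatrix (Fin N) (Fin N) ℂ) :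
    ‖psi g T‖ ≤ ‖T‖ := by
  rw [psi_bil]
  refine (norm_bil_le _ g g hg hg).trans ?_
  exact NonUnitalStarAlgHom.norm_apply_le (CStarMatrix.mapₙₐ (scal : ℂ →⋆ₙₐ[ℂ] A)) T

set_option backward.isDefEq.respectTransparency false in
theorem psi_cp (k : ℕ) (M : CStarMatrix (Fin k) (Fin k) (CStarMatrix (Fin N) (Fin N) ℂ))
    (hM : 0 ≤ M) : 0 ≤ M.map (psi g) := by
  have hs : star M = M := (IsSelfAdjoint.of_nonneg hM).star_eq
  obtain ⟨Y, rfl⟩ := (CStarAlgebra.nonneg_iff_eq_star_mul_self).1 hM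
  refine nonneg_of_bil _ ?_ ?_
  · ext i j
    rw [CStarMatrix.star_apply, CStarMatrix.map_apply, CStarMatrix.map_apply, psi_star]
    conv_rhs => rw [← hs]
    rw [CStarMatrix.star_apply]
  · intro z
    have h1 : bil ((star Y * Y).map (psi g)) z z = ∑ r, ∑ l,
        star (∑ p, (∑ i, (Y r p) l i • g i) * z p) * (∑ q, (∑ j, (Y r q) l j • g j) * z q) := by
      have h2 : ∀ p q, ((star Y * Y).map (psi g)) p q = ∑ r, ∑ l,
          star (∑ i, (Y r p) l i • g i) * (∑ j, (Y r q) l j • g j) := by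
        intro p q
        rw [CStarMatrix.map_apply, CStarMatrix.mul_apply, map_sum]
        refine Finset.sum_congr rfl fun r _ => ?_
        rw [CStarMatrix.star_apply, psi_mul]
      unfold bil
      simp only [h2]
      exact form_eq (fun r l p => ∑ i, (Y r p) l i • g i) z
    rw [h1]
    exact Finset.sum_nonneg fun r _ => Finset.sum_nonneg fun l _ => star_mul_self_nonneg _

end PsiAux

theorem t_psi : SPsi := by
  intro A _ _ _ N g hg
  exact ⟨⟨PsiAux.psi g, PsiAux.psi_cp g⟩, PsiAux.psi_apply g, PsiAux.norm_psi_le g hg⟩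

end Pool.Agent.N469.CO
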