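import Pool.Agent.N469.CO.Stm
import Pool.Agent.W661.Nrm13

/-!
# Project CONE (MP_b9f29c_an), part PUR: an irreducible representation vanishing on an ideal
-/

set_option autoImplicit false

open scoped CStarAlgebra ComplexOrder InnerProductSpace

namespace Pool.Agent.N469.CO

namespace PurAux

open Pool.Agent.W661.Nrm ContinuousLinearMap

variable {A : Type*} [CStarAlgebra A] [PartialOrder A] [StarOrderedRing A]

theorem gns_zero (φ : A →ₚ[ℂ] ℂ) (x : A) (h : φ (star x * x) = 0) :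
    φ.gnsStarAlgHom x (om φ) = 0 := by
  have h1 : ⟪φ.gnsStarAlgHom x (om φ), φ.gnsStarAlgHom x (om φ)⟫_ℂ = 0 := by
    rw [pi_inner, ← mul_apply_eq_comp, ← map_mul, gns_inner, h]
  exact inner_self_eq_zero.1 h1

theorem zero_of_star (φ : A →ₚ[ℂ] ℂ) (x : A) (h : φ (star x * x) = 0) : φ x = 0 := by
  rw [← gns_inner φ x, gns_zero φ x h, inner_zero_right]

/-- a pure state which vanishes on a left ideal on which some state vanishes -/
theorem exists_pure_van (J : Submodule ℂ A) (hl : ∀ a, ∀ x ∈ J, a * x ∈ J)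
    (φ0 : A →ₚ[ℂ] ℂ) (h01 : φ0 1 = 1) (h0J : ∀ x ∈ J, φ0 x = 0) :
    ∃ φ : A →ₚ[ℂ] ℂ, Pure φ ∧ ∀ x ∈ J, φ x = 0 := by
  have hcl : IsClosed {f : A → ℂ | ∀ x ∈ J, f x = 0} := by
    simp only [Set.ofPred_forall]
    exact isClosed_iInter fun x => isClosed_iInter fun _ =>
      isClosed_eq (by fun_prop) (by fun_prop)
  have hFc : IsCompact (St A ∩ {f : A → ℂ | ∀ x ∈ J, f x = 0}) := St_compact.inter_right hcl
  obtain ⟨f, hf⟩ := hFc.extremePoints_nonempty ⟨(φ0 : A → ℂ), ⟨φ0, h01, rfl⟩, h0J⟩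
  rw [mem_extremePoints_iff_left] at hf
  obtain ⟨⟨⟨φ, hφ1, rfl⟩, hφJ⟩, hext⟩ := hf
  have hφJ' : ∀ x ∈ J, φ x = 0 := hφJ
  refine ⟨φ, ⟨hφ1, ?_⟩, hφJ'⟩
  intro χ hχ
  have hχ1 := hχ 1 zero_le_one
  have hχ0 : 0 ≤ χ 1 := χ.map_nonneg zero_le_one
  rw [hφ1] at hχ1
  set t : ℝ := (χ 1).re with ht
  have htc : χ 1 = (t : ℂ) := by
    apply Complex.ext
    · simp [ht]
    · simpa using (Complex.le_def.1 hχ0).2.symm
  have ht0 : 0 ≤ t := by simpa using (Complex.le_def.1 hχ0).1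
  have ht1 : t ≤ 1 := by simpa using (Complex.le_def.1 hχ1).1
  -- the difference
  let χ' : A →ₚ[ℂ] ℂ := PositiveLinearMap.mk₀ ((φ : A →ₗ[ℂ] ℂ) - (χ : A →ₗ[ℂ] ℂ)) (by
    intro x hx
    have := hχ x hx
    exact sub_nonneg.2 this)
  have hχ'a : ∀ a, χ' a = φ a - χ a := fun a => rfl
  have hχJ : ∀ x ∈ J, χ x = 0 := by
    intro x hx
    apply zero_of_star
    have h1 : χ (star x * x) ≤ 0 := by
      rw [← hφJ' _ (hl (star x) x hx)]
      exact hχ _ (star_mul_self_nonneg x)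
    exact le_antisymm h1 (χ.map_nonneg (star_mul_self_nonneg x))
  have hχ'J : ∀ x ∈ J, χ' x = 0 := by
    intro x hx
    rw [hχ'a, hφJ' x hx, hχJ x hx, sub_zero]
  rcases ht0.eq_or_lt with h0 | h0
  · refine ⟨0, fun a => ?_⟩
    rw [zero_mul]
    exact zero_of_one χ (by rw [htc, ← h0]; simp) a
  rcases ht1.eq_or_lt with h1 | h1
  · refine ⟨1, fun a => ?_⟩
    have := zero_of_one χ' (by rw [hχ'a, hφ1, htc, h1]; simp) a
    rw [hχ'a, sub_eq_zero] at this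
    rw [one_mul, this]
  have ht' : 0 < 1 - t := by linarith
  have hpos : ∀ (η : A →ₚ[ℂ] ℂ) (r : ℝ), 0 ≤ r → ∀ x : A, 0 ≤ x →
      0 ≤ ((r : ℂ) • (η : A →ₗ[ℂ] ℂ)) x := by
    intro η r hr x hx
    have h1 : 0 ≤ η x := η.map_nonneg hx
    have h2 : (0 : ℂ) ≤ (r : ℂ) := by exact_mod_cast hr
    exact mul_nonneg h2 h1
  let η1 : A →ₚ[ℂ] ℂ := PositiveLinearMap.mk₀ (((t⁻¹ : ℝ) : ℂ) • (χ : A →ₗ[ℂ] ℂ))
    (hpos χ _ (by positivity))
  let η2 : A →ₚ[ℂ] ℂ := PositiveLinearMap.mk₀ ((((1 - t)⁻¹ : ℝ) : ℂ) • (χ' : A →ₗ[ℂ] ℂ))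
    (hpos χ' _ (by positivity))
  have hη1 : ∀ a, η1 a = ((t⁻¹ : ℝ) : ℂ) * χ a := fun a => rfl
  have hη2 : ∀ a, η2 a = (((1 - t)⁻¹ : ℝ) : ℂ) * χ' a := fun a => rfl
  have htne : (t : ℂ) ≠ 0 := by exact_mod_cast h0.ne'
  have htne' : (1 - t : ℂ) ≠ 0 := by exact_mod_cast ht'.ne'
  have m1 : (η1 : A → ℂ) ∈ St A := ⟨η1, by rw [hη1, htc]; push_cast; field_simp, rfl⟩
  have m2 : (η2 : A → ℂ) ∈ St A := ⟨η2, by
    rw [hη2, hχ'a, hφ1, htc]; push_cast; field_simp, rfl⟩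
  have j1 : ∀ x ∈ J, η1 x = 0 := by
    intro x hx
    rw [hη1, hχJ x hx, mul_zero]
  have j2 : ∀ x ∈ J, η2 x = 0 := by
    intro x hx
    rw [hη2, hχ'J x hx, mul_zero]
  have hcomb : (φ : A → ℂ) = t • (η1 : A → ℂ) + (1 - t) • (η2 : A → ℂ) := by
    funext a
    rw [Pi.add_apply, Pi.smul_apply, Pi.smul_apply, hη1, hη2, hχ'a, Complex.real_smul,
      Complex.real_smul]
    push_cast
    field_simp
    ring
  have := hext η1 ⟨m1, j1⟩ η2 ⟨m2, j2⟩ ⟨t, 1 - t, h0, ht', by ring, hcomb.symm⟩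
  refine ⟨t, fun a => ?_⟩
  have h3 := congrFun this a
  rw [hη1] at h3
  rw [← h3]
  push_cast
  field_simp

end PurAux

open Pool.Agent.W661.Nrm ContinuousLinearMap PurAux in
/-- PUR -/
theorem t_pur : SPur := by
  intro C _ _ _ J hl hr φ0 h01 h0J
  obtain ⟨φ, hφ, hφJ⟩ := exists_pure_van J hl φ0 h01 h0J
  have hom : om φ ≠ 0 := by
    intro h
    have h1 := gns_inner φ 1
    rw [h, inner_zero_left, hφ.one] at h1
    exact zero_ne_one h1
  refine ⟨φ.GNS, inferInstance, inferInstance, inferInstance, φ.gnsStarAlgHom,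
    ⟨⟨om φ, 0, hom⟩⟩, ?_, ?_⟩
  · intro x hx
    ext y
    refine (gns_dense φ).induction_on (p := fun y => φ.gnsStarAlgHom x y = (0 : φ.GNS →L[ℂ] φ.GNS) y)
      y ?_ ?_
    · exact isClosed_eq (by fun_prop) (by fun_prop)
    · intro b
      rw [← mul_apply_eq_comp, ← map_mul]
      have h1 : φ (star (x * b) * (x * b)) = 0 := hφJ _ (hl _ _ (hr b x hx))
      rw [gns_zero φ _ h1]
      rfl
  · intro M hM hinv
    by_cases hb : M = ⊥
    · exact Or.inl hb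
    · right
      obtain ⟨ξ, hξ, hξ0⟩ := (Submodule.ne_bot_iff M).1 hb
      have hd := cyclic_of_irr (irr_of_pure hφ) hξ0
      rw [eq_top_iff]
      intro x _
      have h1 : closure (Set.range fun a => φ.gnsStarAlgHom a ξ) ⊆ (M : Set φ.GNS) := by
        apply closure_minimal _ hM
        rintro _ ⟨a, rfl⟩
        exact hinv a ξ hξ
      exact h1 (hd x)

end Pool.Agent.N469.CO
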