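import Pool.Agent.N469.CO.Stm

/-!
# Project CONE (MP_b9f29c_an), part SEP: the cone over a separable algebra is separable
-/

set_option autoImplicit false

open scoped CStarAlgebra ComplexOrder InnerProductSpace
open Filter Topology

namespace Pool.Agent.N469.CO

namespace SepAux

theorem second (D : Type) [CStarAlgebra D] (h : TopologicalSpace.SeparableSpace D) :
    SecondCountableTopology C(unitInterval, D) := by
  have : SecondCountableTopology D := UniformSpace.secondCountable_of_separable D
  infer_instance

theorem sub (D : Type) [CStarAlgebra D] (h : TopologicalSpace.SeparableSpace D) :
    @TopologicalSpace.SeparableSpace (Cone D)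
      (instTopologicalSpaceSubtype : TopologicalSpace (Cone D)) := by
  have : SecondCountableTopology C(unitInterval, D) := second D h
  infer_instance

end SepAux

/-- SEP: the unitised cone over a separable algebra is separable -/
theorem t_sep : SSep := by
  intro D _ h
  exact SepAux.sub D h

end Pool.Agent.N469.CO
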