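import Pool.Agent.N469.CO.Stm

/-!
# Project CONE (helper469), piece STA (helper592)

A state which vanishes on a given proper two-sided ideal: the Hahn-Banach theorem in the quotient,
and functionals of norm at most one with value one at the unit are positive.
-/

set_option autoImplicit false

open scoped CStarAlgebra ComplexOrder InnerProductSpace

namespace Pool.Agent.N469.CO

namespace StaAux

theorem im_zero {x y N : ℝ} (h : ∀ t : ℝ, x ^ 2 + (y + t) ^ 2 ≤ N ^ 2 + t ^ 2) : y = 0 := by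
  by_contra hy
  have h1 := h ((N ^ 2 + 1) / (2 * y))
  have h2 : y * ((N ^ 2 + 1) / (2 * y)) = (N ^ 2 + 1) / 2 := by
    field_simp
  nlinarith [sq_nonneg x, sq_nonneg y]

/-- A functional of norm at most one with value one at the unit is real on self-adjoint elements. -/
theorem real_of_sa {C : Type} [CStarAlgebra C] (f : C →L[ℂ] ℂ) (hf : ∀ x, ‖f x‖ ≤ ‖x‖)
    (h1 : f 1 = 1) {a : C} (ha : IsSelfAdjoint a) : (f a).im = 0 := by
  apply im_zero (x := (f a).re) (N := ‖a‖)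
  intro t
  have h2 : f (a + (((t : ℂ) * Complex.I) • (1 : C))) = f a + (t : ℂ) * Complex.I := by
    rw [map_add, map_smul, h1, smul_eq_mul, mul_one]
  have h3 := hf (a + (((t : ℂ) * Complex.I) • (1 : C)))
  rw [h2] at h3
  have h4 : ‖f a + (t : ℂ) * Complex.I‖ ^ 2 = (f a).re ^ 2 + ((f a).im + t) ^ 2 := by
    rw [← Complex.normSq_eq_norm_sq, Complex.normSq_apply]
    simp
    ring
  have h5 : ‖a + (((t : ℂ) * Complex.I) • (1 : C))‖ ^ 2 ≤ ‖a‖ ^ 2 + t ^ 2 := by
    have h6 : star (a + (((t : ℂ) * Complex.I) • (1 : C))) *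
        (a + (((t : ℂ) * Complex.I) • (1 : C))) = a * a + ((t : ℂ) ^ 2) • (1 : C) := by
      rw [star_add, star_smul, star_one, ha.star_eq]
      have h7 : star ((t : ℂ) * Complex.I) = -((t : ℂ) * Complex.I) := by
        simp
      rw [h7, add_mul, mul_add, mul_add, smul_mul_assoc, smul_mul_assoc, one_mul, mul_smul_comm,
        mul_one, one_mul, smul_smul]
      have h8 : -((t : ℂ) * Complex.I) * ((t : ℂ) * Complex.I) = (t : ℂ) ^ 2 := by
        have := Complex.I_mul_I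
        linear_combination (-(t : ℂ) ^ 2) * this
      rw [h8, neg_smul]
      abel
    rw [sq, ← CStarRing.norm_star_mul_self, h6]
    refine (norm_add_le _ _).trans (add_le_add ?_ ?_)
    · rw [sq]; exact norm_mul_le _ _
    · rw [norm_smul]
      rcases subsingleton_or_nontrivial C with h | h
      · have : (1 : C) = 0 := Subsingleton.elim _ _
        rw [this, norm_zero, mul_zero]; positivity
      · rw [CStarRing.norm_one, mul_one]
        simp
  have h9 : ‖f a + (t : ℂ) * Complex.I‖ ^ 2 ≤ ‖a + (((t : ℂ) * Complex.I) • (1 : C))‖ ^ 2 := by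
    gcongr
  linarith

theorem nonneg_of {C : Type} [CStarAlgebra C] [PartialOrder C] [StarOrderedRing C]
    (f : C →L[ℂ] ℂ) (hf : ∀ x, ‖f x‖ ≤ ‖x‖) (h1 : f 1 = 1) {a : C} (ha : 0 ≤ a) : 0 ≤ f a := by
  have hsa : IsSelfAdjoint a := IsSelfAdjoint.of_nonneg ha
  have him := real_of_sa f hf h1 hsa
  have hle : a ≤ algebraMap ℝ C ‖a‖ := hsa.le_algebraMap_norm_self
  have h2 : 0 ≤ algebraMap ℝ C ‖a‖ - a := sub_nonneg.2 hle
  have h3 : ‖algebraMap ℝ C ‖a‖ - a‖ ≤ ‖a‖ := by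
    rw [CStarAlgebra.norm_le_iff_le_algebraMap _ (norm_nonneg _) h2]
    exact sub_le_self _ ha
  have h4 : f (algebraMap ℝ C ‖a‖ - a) = (‖a‖ : ℂ) - f a := by
    rw [map_sub]
    congr 1
    have h5 : algebraMap ℝ C ‖a‖ = ((‖a‖ : ℝ) : ℂ) • (1 : C) := by
      rw [Algebra.algebraMap_eq_smul_one, ← Complex.coe_smul]
    rw [h5, map_smul, h1, smul_eq_mul, mul_one]
  have h5 := (hf (algebraMap ℝ C ‖a‖ - a)).trans h3
  rw [h4] at h5
  have h6 := (Complex.abs_re_le_norm _).trans h5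
  rw [Complex.sub_re, Complex.ofReal_re, abs_le] at h6
  rw [Complex.nonneg_iff]
  exact ⟨by linarith [h6.2], him.symm⟩

end StaAux

open StaAux in
/-- A state which vanishes on a given proper two-sided ideal. -/
theorem t_sta : SSta := by
  intro C _ _ _ J hJl hJr hJ1
  have hnt : Nontrivial C := ⟨⟨1, 0, fun h => hJ1 (h ▸ J.zero_mem)⟩⟩
  -- elements of the ideal are far from the unit
  have hfar : ∀ x ∈ J, 1 ≤ ‖(1 : C) + x‖ := by
    intro x hx
    by_contra hlt
    push Not at hlt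
    have hu : IsUnit (-x) := by
      have h1 : -x = 1 - (1 + x) := by abel
      rw [h1]
      exact (Units.oneSub (1 + x) hlt).isUnit
    obtain ⟨u, hu⟩ := hu
    apply hJ1
    have h2 : (1 : C) = (-(↑u⁻¹ : C)) * x := by
      have h3 : (↑u⁻¹ : C) * ↑u = 1 := u.inv_mul
      rw [hu] at h3
      rw [neg_mul, ← h3, mul_neg]
    rw [h2]
    exact hJl _ x hx
  have hnorm : ‖(Submodule.Quotient.mk (1 : C) : C ⧸ J)‖ = 1 := by
    apply le_antisymm
    · refine (Submodule.Quotient.norm_mk_le J (1 : C)).trans ?_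
      rw [CStarRing.norm_one]
    · have h1 : ‖(Submodule.Quotient.mk (1 : C) : C ⧸ J)‖ =
          sInf ((‖(1 : C) + ·‖) '' (J.toAddSubgroup : Set C)) :=
        quotient_norm_mk_eq J.toAddSubgroup (1 : C)
      rw [h1]
      refine le_csInf ⟨_, 0, J.zero_mem, rfl⟩ ?_
      rintro _ ⟨x, hx, rfl⟩
      exact hfar x hx
  obtain ⟨g, hg1, hg2⟩ := exists_dual_vector ℂ (Submodule.Quotient.mk (1 : C) : C ⧸ J)
    (by rw [hnorm]; exact one_ne_zero)
  let f₀ : C →ₗ[ℂ] ℂ := g.toLinearMap ∘ₗ J.mkQ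
  have hf₀ : ∀ x, ‖f₀ x‖ ≤ ‖x‖ := by
    intro x
    calc ‖f₀ x‖ = ‖g (Submodule.Quotient.mk x : C ⧸ J)‖ := rfl
      _ ≤ ‖g‖ * ‖(Submodule.Quotient.mk x : C ⧸ J)‖ := g.le_opNorm _
      _ = ‖(Submodule.Quotient.mk x : C ⧸ J)‖ := by rw [hg1, one_mul]
      _ ≤ ‖x‖ := Submodule.Quotient.norm_mk_le J x
  let f : C →L[ℂ] ℂ := f₀.mkContinuous 1 (fun x => by rw [one_mul]; exact hf₀ x)
  have hf : ∀ x, ‖f x‖ ≤ ‖x‖ := hf₀
  have hf1 : f 1 = 1 := by
    change g (Submodule.Quotient.mk (1 : C) : C ⧸ J) = 1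
    rw [hg2, hnorm]
    simp
  refine ⟨PositiveLinearMap.mk₀ f.toLinearMap (fun a ha => nonneg_of f hf hf1 ha), hf1, ?_⟩
  intro x hx
  change g (Submodule.Quotient.mk x : C ⧸ J) = 0
  rw [(Submodule.Quotient.mk_eq_zero J).2 hx, map_zero]

end Pool.Agent.N469.CO
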