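import Pool.Agent.N469.CO.Stm

/-!
# Project CONE (helper469), W2 (helper216): adjoints of words on the basis
-/

set_option autoImplicit false

open scoped CStarAlgebra ComplexOrder InnerProductSpace

namespace Pool.Agent.N469.CO

namespace W2Aux

/-- the action of the word `b` on the indices -/
def sh (b l : ℕ) : ℕ := 2 ^ (Nat.log 2 b) * l + (b - 2 ^ (Nat.log 2 b))

theorem sh_one (l : ℕ) : sh 1 l = l := by simp [sh]

theorem sh_two (b l i : ℕ) (hb : 1 ≤ b) (hi : i < 2) : sh (2 * b + i) l = 2 * sh b l + i := by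
  have h1 : Nat.log 2 (2 * b + i) = Nat.log 2 b + 1 := by
    have h2 : (2 * b + i) / 2 = b := by omega
    rw [← h2, Nat.log_div_base, h2]
    have h3 : 1 ≤ Nat.log 2 (2 * b + i) := Nat.log_pos (by norm_num) (by omega)
    omega
  have h2 : 2 ^ Nat.log 2 b ≤ b := Nat.pow_log_le_self 2 (by omega)
  unfold sh
  rw [h1, pow_succ]
  have h3 : 2 ^ Nat.log 2 b * 2 * l = 2 * (2 ^ Nat.log 2 b * l) := by ring
  rw [h3]
  omega

variable {H : Type} [NormedAddCommGroup H] [InnerProductSpace ℂ H] [CompleteSpace H] (c : Cz H)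

theorem adj_sh (h : SW1) (b l : ℕ) (hb : 1 ≤ b) : star (w c b) (c.e (sh b l)) = c.e l := by
  obtain ⟨-, h2, h3, -⟩ := h H c
  have h4 : w c b (c.e l) = c.e (sh b l) := h3 b l hb
  rw [← h4]
  have h5 := congrArg (fun T : H →L[ℂ] H => T (c.e l)) (h2 b hb)
  exact h5

theorem adj_zero (h : SW1) : ∀ b : ℕ, 1 ≤ b → ∀ m : ℕ, (¬ ∃ l, m = sh b l) →
    star (w c b) (c.e m) = 0 := by
  obtain ⟨h1, -, -, -⟩ := h H c
  intro b
  induction b using Nat.strong_induction_on with
  | _ b ih =>
    intro hb m hm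
    rcases Nat.lt_or_ge b 2 with hb2 | hb2
    · exfalso
      have : b = 1 := by omega
      subst this
      exact hm ⟨m, (sh_one m).symm⟩
    · obtain ⟨b', i, rfl, hb'⟩ : ∃ (b' : ℕ) (i : Fin 2), b = 2 * b' + i ∧ 1 ≤ b' :=
        ⟨b / 2, ⟨b % 2, by omega⟩, by simp only; omega, by omega⟩
      obtain ⟨m', j, rfl⟩ : ∃ (m' : ℕ) (j : Fin 2), m = 2 * m' + j :=
        ⟨m / 2, ⟨m % 2, by omega⟩, by simp only; omega⟩
      rw [h1 b' i hb', star_mul, ← c.act]
      show star (w c b') (star (c.s i) (c.s j (c.e m'))) = 0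
      have h2 : star (c.s i) (c.s j (c.e m')) = (star (c.s i) * c.s j) (c.e m') := rfl
      rw [h2, c.iso]
      by_cases hij : i = j
      · subst hij
        rw [if_pos rfl]
        show star (w c b') (c.e m') = 0
        apply ih b' (by omega) hb' m'
        rintro ⟨l, hl⟩
        apply hm
        refine ⟨l, ?_⟩
        rw [sh_two b' l i hb' i.2, ← hl]
      · rw [if_neg hij]
        show star (w c b') 0 = 0
        exact map_zero _

end W2Aux

open W2Aux in
/-- The action of the adjoints of the words on the sequence. -/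
theorem t_w2 : SW2 := by
  intro h H _ _ _ c a b ha hb
  have h3 : ∀ l, w c a (c.e l) = c.e (sh a l) := fun l => (h H c).2.2.1 a l ha
  refine ⟨?_, ?_⟩
  · intro l
    show ⟪c.e (sh a l), w c a (star (w c b) (c.e (sh b l)))⟫_ℂ = 1
    rw [adj_sh c h b l hb, h3]
    have h4 := orthonormal_iff_ite.1 c.orth (sh a l) (sh a l)
    rwa [if_pos rfl] at h4
  · intro m m' hm
    show ⟪c.e m, w c a (star (w c b) (c.e m'))⟫_ℂ = 0
    by_cases h4 : ∃ l, m' = sh b l
    · obtain ⟨l, rfl⟩ := h4
      rw [adj_sh c h b l hb, h3]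
      have h5 := orthonormal_iff_ite.1 c.orth m (sh a l)
      rw [if_neg] at h5
      · exact h5
      · intro h6
        exact hm ⟨l, h6, rfl⟩
    · rw [adj_zero c h b hb m' h4, map_zero, inner_zero_right]

end Pool.Agent.N469.CO
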