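import Pool.Agent.N469.CO.Stm

/-!
# Project CONE (MP_b9f29c_an): the words span a dense subspace of `O_2`
-/

set_option autoImplicit false

open scoped CStarAlgebra ComplexOrder InnerProductSpace

namespace Pool.Agent.N469.CO

namespace W3Aux

variable {H : Type} [NormedAddCommGroup H] [InnerProductSpace ℂ H] [CompleteSpace H]

/-- the span of the words -/
noncomputable def V (c : Cz H) : Submodule ℂ (H →L[ℂ] H) :=
  Submodule.span ℂ (Set.range fun p : ℕ × ℕ => w c p.1 * star (w c p.2))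

theorem mem_V (c : Cz H) (a b : ℕ) : w c a * star (w c b) ∈ V c :=
  Submodule.subset_span ⟨(a, b), rfl⟩

theorem w_zero (c : Cz H) : w c 0 = 0 := by
  unfold w
  rfl

theorem w_one (c : Cz H) : w c 1 = 1 := by
  unfold w
  rfl

theorem split (a : ℕ) (ha : 2 ≤ a) : ∃ (l : ℕ) (i : Fin 2), 1 ≤ l ∧ l < a ∧ a = 2 * l + i := by
  refine ⟨a / 2, ⟨a % 2, Nat.mod_lt _ (by norm_num)⟩, by omega, by omega, ?_⟩
  change a = 2 * (a / 2) + a % 2
  omega

theorem w_mem (c : Cz H)
    (h1 : ∀ (l : ℕ) (i : Fin 2), 1 ≤ l → w c (2 * l + i) = c.s i * w c l) (a : ℕ) :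
    w c a ∈ StarAlgebra.adjoin ℂ (Set.range c.s) := by
  induction a using Nat.strong_induction_on with
  | _ a ih =>
    rcases Nat.lt_or_ge a 2 with h | h
    · interval_cases a
      · rw [w_zero]; exact zero_mem _
      · rw [w_one]; exact one_mem _
    · obtain ⟨l, i, hl, hla, rfl⟩ := split a h
      rw [h1 l i hl]
      exact mul_mem (StarAlgebra.subset_adjoin ℂ _ ⟨i, rfl⟩) (ih l hla)

/-- stability under left multiplication by `s i` -/
theorem left_s (c : Cz H)
    (h1 : ∀ (l : ℕ) (i : Fin 2), 1 ≤ l → w c (2 * l + i) = c.s i * w c l) (i : Fin 2) (a b : ℕ) :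
    c.s i * (w c a * star (w c b)) ∈ V c := by
  rcases Nat.eq_zero_or_pos a with h | h
  · subst h
    rw [w_zero, zero_mul, mul_zero]
    exact zero_mem _
  · rw [← mul_assoc, ← h1 a i h]
    exact mem_V c _ _

theorem left_star (c : Cz H)
    (h1 : ∀ (l : ℕ) (i : Fin 2), 1 ≤ l → w c (2 * l + i) = c.s i * w c l)
    (h4 : ∀ a l : ℕ, 1 ≤ a → 1 ≤ l →
      w c (2 ^ (Nat.log 2 a) * l + (a - 2 ^ (Nat.log 2 a))) = w c a * w c l)
    (i : Fin 2) (a b : ℕ) : star (c.s i) * (w c a * star (w c b)) ∈ V c := by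
  rcases Nat.lt_or_ge a 2 with h | h
  · interval_cases a
    · rw [w_zero, zero_mul, mul_zero]
      exact zero_mem _
    · rw [w_one, one_mul]
      rcases Nat.eq_zero_or_pos b with hb | hb
      · subst hb
        rw [w_zero, star_zero, mul_zero]
        exact zero_mem _
      · have h2 : c.s i = w c (2 * 1 + i) := by rw [h1 1 i le_rfl, w_one, mul_one]
        have h3 : w c b * c.s i =
            w c (2 ^ (Nat.log 2 b) * (2 * 1 + i) + (b - 2 ^ (Nat.log 2 b))) := by
          rw [h2, h4 b (2 * 1 + i) hb (by omega)]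
        rw [← star_mul, h3]
        have h5 := mem_V c 1 (2 ^ (Nat.log 2 b) * (2 * 1 + i) + (b - 2 ^ (Nat.log 2 b)))
        rwa [w_one, one_mul] at h5
  · obtain ⟨l, j, hl, hla, rfl⟩ := split a h
    rw [h1 l j hl]
    have h6 : star (c.s i) * (c.s j * w c l * star (w c b)) =
        (star (c.s i) * c.s j) * (w c l * star (w c b)) := by
      simp only [mul_assoc]
    rw [h6, c.iso i j]
    split_ifs
    · rw [one_mul]; exact mem_V c _ _
    · rw [zero_mul]; exact zero_mem _

/-- stability from the generators -/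
theorem stable (c : Cz H) (x : H →L[ℂ] H)
    (hx : ∀ a b, x * (w c a * star (w c b)) ∈ V c) : ∀ v ∈ V c, x * v ∈ V c := by
  intro v hv
  induction hv using Submodule.span_induction with
  | mem v hv =>
    obtain ⟨p, rfl⟩ := hv
    exact hx p.1 p.2
  | zero => rw [mul_zero]; exact zero_mem _
  | add y z _ _ hy hz => rw [mul_add]; exact add_mem hy hz
  | smul r y _ hy => rw [mul_smul_comm]; exact Submodule.smul_mem _ _ hy

/-- the subalgebra of the operators which preserve `V` -/
noncomputable def St (c : Cz H) : Subalgebra ℂ (H →L[ℂ] H) where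
  carrier := {x | ∀ v ∈ V c, x * v ∈ V c}
  mul_mem' := by
    intro x y hx hy v hv
    rw [mul_assoc]
    exact hx _ (hy v hv)
  add_mem' := by
    intro x y hx hy v hv
    rw [add_mul]
    exact add_mem (hx v hv) (hy v hv)
  algebraMap_mem' := by
    intro r v hv
    rw [← Algebra.smul_def]
    exact Submodule.smul_mem _ _ hv

theorem adjoin_le (c : Cz H)
    (h1 : ∀ (l : ℕ) (i : Fin 2), 1 ≤ l → w c (2 * l + i) = c.s i * w c l)
    (h4 : ∀ a l : ℕ, 1 ≤ a → 1 ≤ l →
      w c (2 ^ (Nat.log 2 a) * l + (a - 2 ^ (Nat.log 2 a))) = w c a * w c l)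
    (x : H →L[ℂ] H) (hx : x ∈ StarAlgebra.adjoin ℂ (Set.range c.s)) : x ∈ V c := by
  have h5 : Algebra.adjoin ℂ (Set.range c.s ∪ star (Set.range c.s)) ≤ St c := by
    refine Algebra.adjoin_le ?_
    rintro y (⟨i, rfl⟩ | hy)
    · exact stable c _ (left_s c h1 i)
    · obtain ⟨i, hi⟩ := hy
      have h7 : y = star (c.s i) := by rw [hi, star_star]
      rw [h7]
      exact stable c _ (left_star c h1 h4 i)
  have h6 : x ∈ St c := h5 hx
  have h7 : (1 : H →L[ℂ] H) ∈ V c := by
    have h8 := mem_V c 1 1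
    rwa [w_one, one_mul, star_one] at h8
  have h9 := h6 1 h7
  rwa [mul_one] at h9

end W3Aux

open W3Aux in
theorem t_w3 : SW3 := by
  intro hw H _ _ _ c
  obtain ⟨h1, -, -, h4, -⟩ := hw H c
  refine ⟨?_, ?_⟩
  · intro a b
    exact StarSubalgebra.le_topologicalClosure _ (mul_mem (w_mem c h1 a) (star_mem (w_mem c h1 b)))
  · intro x hx
    have h2 : x ∈ closure ((StarAlgebra.adjoin ℂ (Set.range c.s) :
        StarSubalgebra ℂ (H →L[ℂ] H)) : Set (H →L[ℂ] H)) := hx
    exact closure_mono (fun y hy => adjoin_le c h1 h4 y hy) h2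

end Pool.Agent.N469.CO
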