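import Pool.Agent.N469.CO.Stm

/-!
# Project CONE (MP_b9f29c_an): the average over the words (W4)
-/

set_option autoImplicit false

open scoped CStarAlgebra ComplexOrder InnerProductSpace
open Filter Topology

namespace Pool.Agent.N469.CO

namespace W4Aux

variable {H : Type} [NormedAddCommGroup H] [InnerProductSpace ℂ H] [CompleteSpace H]

theorem w_zero (c : Cz H) : w c 0 = 0 := by
  rw [w]

/-- the index of the word `a` followed by the word `l` -/
def ix (a l : ℕ) : ℕ := 2 ^ (Nat.log 2 a) * l + (a - 2 ^ (Nat.log 2 a))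

theorem ix_lt {a : ℕ} (ha : 1 ≤ a) {n : ℕ} (hn : Nat.log 2 a ≤ n) (l : ℕ) :
    ix a l < 2 ^ n ↔ l < 2 ^ (n - Nat.log 2 a) := by
  have h1 : 2 ^ Nat.log 2 a ≤ a := Nat.pow_log_le_self 2 (by omega)
  have h2 : a < 2 ^ (Nat.log 2 a + 1) := Nat.lt_pow_succ_log_self (by norm_num) a
  have h3 : 2 ^ n = 2 ^ Nat.log 2 a * 2 ^ (n - Nat.log 2 a) := by
    rw [← pow_add]
    congr 1
    omega
  unfold ix
  rw [h3]
  generalize 2 ^ (n - Nat.log 2 a) = r
  rw [pow_succ] at h2
  generalize 2 ^ Nat.log 2 a = q at *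
  constructor
  · intro h
    by_contra hl
    push Not at hl
    have : q * r ≤ q * l := Nat.mul_le_mul_left _ hl
    omega
  · intro h
    have : q * (l + 1) ≤ q * r := Nat.mul_le_mul_left _ h
    rw [Nat.mul_succ] at this
    omega

theorem ix_inj (a : ℕ) : Function.Injective (ix a) := by
  intro l l' h
  unfold ix at h
  have h1 : 2 ^ Nat.log 2 a * l = 2 ^ Nat.log 2 a * l' := by omega
  exact Nat.eq_of_mul_eq_mul_left (by positivity) h1

theorem sum_eq (h1 : SW1) (h2 : SW2') (c : Cz H) {a b : ℕ} (ha : 1 ≤ a) (hb : 1 ≤ b) {n : ℕ}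
    (hn : max (Nat.log 2 a) (Nat.log 2 b) ≤ n) :
    ∑ m ∈ Finset.range (2 ^ n), ∑ m' ∈ Finset.range (2 ^ n),
      ⟪c.e m, (w c a * star (w c b)) (c.e m')⟫_ℂ • (w c m * star (w c m')) =
    w c (ix a 0) * star (w c (ix b 0)) +
      ((n - max (Nat.log 2 a) (Nat.log 2 b) : ℕ) : ℂ) • (w c a * star (w c b)) := by
  obtain ⟨-, -, -, hmul, hsum⟩ := h1 H c
  obtain ⟨h2a, h2b⟩ := h2 H c a b ha hb
  have hna : Nat.log 2 a ≤ n := le_trans (le_max_left _ _) hn
  have hnb : Nat.log 2 b ≤ n := le_trans (le_max_right _ _) hn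
  set M := max (Nat.log 2 a) (Nat.log 2 b) with hM
  have hmin : ∀ l, l < 2 ^ (n - M) ↔ l < 2 ^ (n - Nat.log 2 a) ∧ l < 2 ^ (n - Nat.log 2 b) := by
    intro l
    rcases le_total (Nat.log 2 a) (Nat.log 2 b) with h | h
    · have hMe : M = Nat.log 2 b := max_eq_right h
      rw [hMe]
      refine ⟨fun hl => ⟨lt_of_lt_of_le hl (Nat.pow_le_pow_right (by norm_num) (by omega)), hl⟩,
        fun hl => hl.2⟩
    · have hMe : M = Nat.log 2 a := max_eq_left h
      rw [hMe]
      refine ⟨fun hl => ⟨hl, lt_of_lt_of_le hl (Nat.pow_le_pow_right (by norm_num) (by omega))⟩,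
        fun hl => hl.1⟩
  rw [← Finset.sum_product']
  have key : ∑ l ∈ Finset.range (2 ^ (n - M)), w c (ix a l) * star (w c (ix b l)) =
      ∑ p ∈ Finset.range (2 ^ n) ×ˢ Finset.range (2 ^ n),
        ⟪c.e p.1, (w c a * star (w c b)) (c.e p.2)⟫_ℂ • (w c p.1 * star (w c p.2)) := by
    refine Finset.sum_of_injOn (fun l => (ix a l, ix b l)) ?_ ?_ ?_ ?_
    · intro l _ l' _ h
      exact ix_inj a (Prod.ext_iff.mp h).1
    · intro l hl
      simp only [Finset.coe_range, Set.mem_Iio] at hl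
      have h3 := (hmin l).1 hl
      simp only [Finset.coe_product, Finset.coe_range, Set.mem_prod, Set.mem_Iio]
      exact ⟨(ix_lt ha hna l).2 h3.1, (ix_lt hb hnb l).2 h3.2⟩
    · rintro ⟨m, m'⟩ hp hnot
      simp only [Finset.mem_product, Finset.mem_range] at hp
      have h0 := h2b m m' (by
        rintro ⟨l, rfl, rfl⟩
        apply hnot
        refine ⟨l, ?_, rfl⟩
        simp only [Finset.coe_range, Set.mem_Iio]
        exact (hmin l).2 ⟨(ix_lt ha hna l).1 hp.1, (ix_lt hb hnb l).1 hp.2⟩)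
      simp only
      rw [h0, zero_smul]
    · intro l _
      have h3 := h2a l
      simp only [ix]
      rw [h3, one_smul]
  rw [← key]
  have hpos : 0 < 2 ^ (n - M) := by positivity
  have hmem : 0 ∈ Finset.range (2 ^ (n - M)) := Finset.mem_range.2 hpos
  rw [← Finset.add_sum_erase _ _ hmem]
  congr 1
  have h4 : ∑ l ∈ (Finset.range (2 ^ (n - M))).erase 0, w c (ix a l) * star (w c (ix b l)) =
      ∑ l ∈ (Finset.range (2 ^ (n - M))).erase 0,
        w c a * (w c l * star (w c l)) * star (w c b) := by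
    refine Finset.sum_congr rfl fun l hl => ?_
    have hl1 : 1 ≤ l := Nat.one_le_iff_ne_zero.2 (Finset.ne_of_mem_erase hl)
    have e1 : w c (ix a l) = w c a * w c l := hmul a l ha hl1
    have e2 : w c (ix b l) = w c b * w c l := hmul b l hb hl1
    rw [e1, e2, star_mul]
    simp only [mul_assoc]
  rw [h4]
  have h5 : ∑ l ∈ (Finset.range (2 ^ (n - M))).erase 0,
        w c a * (w c l * star (w c l)) * star (w c b) =
      ∑ l ∈ Finset.range (2 ^ (n - M)), w c a * (w c l * star (w c l)) * star (w c b) := by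
    refine Finset.sum_erase _ ?_
    rw [w_zero]
    simp
  rw [h5, ← Finset.sum_mul, ← Finset.mul_sum, hsum]
  rw [mul_smul_comm, mul_one, smul_mul_assoc]

end W4Aux

open W4Aux in
theorem t_w4 : SW4 := by
  intro h1 h2 H _ _ _ c a b
  rcases Nat.eq_zero_or_pos a with rfl | ha
  · rw [w_zero]
    simp
  rcases Nat.eq_zero_or_pos b with rfl | hb
  · rw [w_zero]
    simp
  set M := max (Nat.log 2 a) (Nat.log 2 b) with hM
  set X := w c a * star (w c b) with hX
  set E := w c (ix a 0) * star (w c (ix b 0)) with hE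
  have hinv : Tendsto (fun n : ℕ => ((n : ℂ)⁻¹)) atTop (𝓝 0) :=
    tendsto_inv_atTop_nhds_zero_nat
  have hlim : Tendsto (fun n : ℕ => (n : ℂ)⁻¹ • (E - (M : ℂ) • X) + X) atTop (𝓝 X) := by
    have := (hinv.smul_const (E - (M : ℂ) • X)).add_const X
    simpa using this
  refine hlim.congr' ?_
  filter_upwards [eventually_ge_atTop (max M 1)] with n hn
  have hnM : M ≤ n := le_trans (le_max_left _ _) hn
  have hn1 : 1 ≤ n := le_trans (le_max_right _ _) hn
  have hn0 : (n : ℂ) ≠ 0 := by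
    exact_mod_cast (by omega : n ≠ 0)
  rw [sum_eq h1 h2 c ha hb hnM, ← hM, ← hX, ← hE, Nat.cast_sub hnM, smul_add, smul_smul,
    smul_sub, smul_smul, mul_sub, inv_mul_cancel₀ hn0, sub_smul, one_smul]
  abel

end Pool.Agent.N469.CO
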