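import Pool.Agent.N469.CO.Obs
import Pool.Agent.N469.CO.Fam
import Pool.Agent.N469.CO.Max
import Pool.Agent.N469.CO.Sta
import Pool.Agent.N469.CO.Pur
import Pool.Agent.N469.CO.FD
import Pool.Agent.N469.CO.Fin
import Pool.Agent.N469.CO.Sep
import Pool.Agent.N469.CO.CPT
import Pool.Agent.N469.CO.BD
import Pool.Agent.N469.CO.CPH
import Pool.Agent.N469.CO.NC1
import Pool.Agent.N469.CO.NC2
import Pool.Agent.N469.CO.Psi
import Pool.Agent.N469.CO.Phi
import Pool.Agent.N469.CO.Cz
import Pool.Agent.N469.CO.W1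
import Pool.Agent.N469.CO.W2
import Pool.Agent.N469.CO.W3
import Pool.Agent.N469.CO.W4
import Pool.Agent.N469.CO.O2S
import Pool.Agent.N469.CO.O2N

/-!
# Project CONE: the result
-/

set_option autoImplicit false

open scoped CStarAlgebra ComplexOrder InnerProductSpace
open Filter Topology

namespace Pool.Agent.N469.CO

theorem obs : SObs := t_obs t_max t_sta t_pur t_fd

theorem main : ∃ (A : Type) (_ : CStarAlgebra A) (_ : PartialOrder A) (_ : StarOrderedRing A),
    TopologicalSpace.SeparableSpace A ∧ Nuclear A ∧ StablyFinite A ∧ ¬ LocTypeI A := by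
  obtain ⟨D, i1, i2, i3, hnt, hsep, hnuc, s, t, hs, ht, hst⟩ :=
    cuntz t_cz (t_o2s (t_w3 t_w1)) (t_o2n t_w1 (t_w3 t_w1) (t_w4 t_w1 (t_w2 t_w1)) t_psi t_phi)
  letI : PartialOrder (Cone D) := CStarAlgebra.spectralOrder _
  haveI : StarOrderedRing (Cone D) := CStarAlgebra.spectralOrderedRing _
  obtain ⟨h1, h2, h3, h4⟩ := family t_fin t_sep (t_nc2 (t_nc1 t_cpt t_bd t_cph)) obs D hsep hnuc
  exact ⟨Cone D, inferInstance, inferInstance, inferInstance, h1, h2, h3, h4 s t hs ht hst⟩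

end Pool.Agent.N469.CO
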