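import Pool.Agent.N469.CO.Stm

/-!
# Project CONE: the obstruction
-/

set_option autoImplicit false

open scoped CStarAlgebra ComplexOrder InnerProductSpace
open Filter Topology

namespace Pool.Agent.N469.CO

namespace ObsAux

/-- a closed subalgebra which contains an element near the unit contains the unit -/
theorem one_mem {D : Type} [CStarAlgebra D] (S : NonUnitalStarSubalgebra ℂ D)
    (hS : IsClosed (S : Set D)) {c : D} (hc : c ∈ S) (h : ‖1 - c‖ < 1) : (1 : D) ∈ S := by
  have h1 : ∀ n : ℕ, 1 - (1 - c) ^ n ∈ S := by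
    intro n
    induction n with
    | zero => simp
    | succ n ih =>
      have e : (1 : D) - (1 - c) ^ (n + 1) =
          c + (1 - (1 - c) ^ n) - c * (1 - (1 - c) ^ n) := by
        rw [pow_succ']
        noncomm_ring
      rw [e]
      exact sub_mem (add_mem hc ih) (mul_mem hc ih)
  have h2 : Tendsto (fun n : ℕ => (1 : D) - (1 - c) ^ n) atTop (𝓝 (1 - 0)) :=
    tendsto_const_nhds.sub (tendsto_pow_atTop_nhds_zero_of_norm_lt_one h)
  rw [sub_zero] at h2
  exact hS.mem_of_tendsto h2 (Eventually.of_forall h1)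

theorem near {D : Type} [CStarAlgebra D] [Nontrivial D] {x y x' y' : D} (hx : star x * x = 1)
    (hy : star y * y = 1) (h1 : ‖x - x'‖ ≤ 1 / 20) (h2 : ‖y - y'‖ ≤ 1 / 20) :
    ‖star x * y - star x' * y'‖ ≤ 1 / 8 := by
  have n1 : ‖x‖ ≤ 1 := by
    have := CStarRing.norm_star_mul_self (x := x)
    rw [hx, norm_one] at this
    nlinarith [norm_nonneg x]
  have n2 : ‖y‖ ≤ 1 := by
    have := CStarRing.norm_star_mul_self (x := y)
    rw [hy, norm_one] at this
    nlinarith [norm_nonneg y]
  have n3 : ‖x'‖ ≤ 21 / 20 := by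
    have : x' = x - (x - x') := by abel
    rw [this]
    refine (norm_sub_le _ _).trans ?_
    linarith
  have e : star x * y - star x' * y' = star (x - x') * y + star x' * (y - y') := by
    rw [star_sub]
    noncomm_ring
  rw [e]
  calc ‖star (x - x') * y + star x' * (y - y')‖
      ≤ ‖star (x - x')‖ * ‖y‖ + ‖star x'‖ * ‖y - y'‖ :=
        (norm_add_le _ _).trans (add_le_add (norm_mul_le _ _) (norm_mul_le _ _))
    _ ≤ 1 / 20 * 1 + 21 / 20 * (1 / 20) := by
        rw [norm_star, norm_star]
        gcongr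
    _ ≤ 1 / 8 := by norm_num

/-- rank one operators are compact -/
theorem rank_one {H : Type} [NormedAddCommGroup H] [InnerProductSpace ℂ H] [CompleteSpace H]
    [Nontrivial H] : ∃ T : H →L[ℂ] H, IsCompactOperator T ∧ T ≠ 0 := by
  obtain ⟨v, hv⟩ := exists_ne (0 : H)
  refine ⟨(ContinuousLinearMap.toSpanSingleton ℂ v).comp (innerSL ℂ v), ?_, ?_⟩
  · have h1 : IsCompactOperator (innerSL ℂ v : H →L[ℂ] ℂ) :=
      isCompactOperator_of_locallyCompactSpace_dom _
    exact h1.clm_comp (ContinuousLinearMap.toSpanSingleton ℂ v)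
  · intro h
    have h2 := congrArg (fun T : H →L[ℂ] H => T v) h
    simp only [ContinuousLinearMap.comp_apply, innerSL_apply_apply,
      ContinuousLinearMap.toSpanSingleton_apply, zero_apply] at h2
    rw [smul_eq_zero] at h2
    rcases h2 with h2 | h2
    · exact hv (inner_self_eq_zero.1 h2)
    · exact hv h2

end ObsAux

open ObsAux

theorem t_obs (hMax : SMax) (hSta : SSta) (hPur : SPur) (hFD : SFD) : SObs := by
  intro A D _ _ _ q hq s t hs ht hst hloc
  obtain ⟨a, ha⟩ := hq s
  obtain ⟨b, hb⟩ := hq t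
  classical
  obtain ⟨B, hBc, hBI, hB⟩ := hloc {a, b} (1 / 20) (by norm_num)
  have hne : (B : Set A).Nonempty := ⟨0, B.zero_mem⟩
  obtain ⟨a', ha', hda⟩ := (Metric.infDist_lt_iff hne).1 (hB a (by simp))
  obtain ⟨b', hb', hdb⟩ := (Metric.infDist_lt_iff hne).1 (hB b (by simp))
  have hsa : ‖s - q a'‖ ≤ 1 / 20 := by
    rw [← ha, ← map_sub]
    refine (NonUnitalStarAlgHom.norm_apply_le q _).trans ?_
    rw [← dist_eq_norm]
    exact hda.le
  have htb : ‖t - q b'‖ ≤ 1 / 20 := by
    rw [← hb, ← map_sub]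
    refine (NonUnitalStarAlgHom.norm_apply_le q _).trans ?_
    rw [← dist_eq_norm]
    exact hdb.le
  have k1 : ‖1 - star (q a') * q a'‖ ≤ 1 / 8 := by
    rw [← hs]
    exact near hs hs hsa hsa
  have k2 : ‖1 - star (q b') * q b'‖ ≤ 1 / 8 := by
    rw [← ht]
    exact near ht ht htb htb
  have k3 : ‖star (q a') * q b'‖ ≤ 1 / 8 := by
    have := near hs ht hsa htb
    rwa [hst, zero_sub, norm_neg] at this
  -- the closure of the image
  set C1 : NonUnitalStarSubalgebra ℂ D := (B.map q).topologicalClosure with hC1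
  have hC1c : IsClosed (C1 : Set D) := NonUnitalStarSubalgebra.isClosed_topologicalClosure _
  have hsub : ∀ x ∈ B, q x ∈ C1 := fun x hx =>
    NonUnitalStarSubalgebra.le_topologicalClosure _ ⟨x, hx, rfl⟩
  have hone : (1 : D) ∈ C1 := by
    refine one_mem C1 hC1c (c := star (q a') * q a') ?_ (by linarith)
    exact mul_mem (star_mem (hsub a' ha')) (hsub a' ha')
  set C : StarSubalgebra ℂ D := C1.toStarSubalgebra hone with hC
  have hCc : IsClosed (C : Set D) := hC1c
  have hmemC : ∀ x, x ∈ C ↔ x ∈ C1 := fun x => Iff.rfl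
  have : Nontrivial C := ⟨⟨0, 1, fun h => zero_ne_one (congrArg Subtype.val h)⟩⟩
  letI iC : CStarAlgebra C := inferInstance
  obtain ⟨J, hJl, hJr, hJ1, hJm⟩ := hMax C
  letI : PartialOrder C := CStarAlgebra.spectralOrder C
  haveI : StarOrderedRing C := CStarAlgebra.spectralOrderedRing C
  obtain ⟨φ0, hφ1, hφJ⟩ := hSta C J hJl hJr hJ1
  obtain ⟨H, i1, i2, i3, π, hnt, hπJ, hπirr⟩ := hPur C J hJl hJr φ0 hφ1 hφJ
  have hπn : ∀ x : C, ‖π x‖ ≤ ‖x‖ := fun x => NonUnitalStarAlgHom.norm_apply_le π x
  let j : B →⋆ₙₐ[ℂ] C :=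
    { toFun := fun x => ⟨q x.1, hsub x.1 x.2⟩
      map_smul' := fun c x => Subtype.ext (map_smul q c x.1)
      map_zero' := Subtype.ext (map_zero q)
      map_add' := fun x y => Subtype.ext (map_add q x.1 y.1)
      map_mul' := fun x y => Subtype.ext (map_mul q x.1 y.1)
      map_star' := fun x => Subtype.ext (map_star q x.1) }
  have hj : ∀ x : B, ((j x : C) : D) = q x.1 := fun x => rfl
  let ρ : B →⋆ₙₐ[ℂ] (H →L[ℂ] H) := (π : C →⋆ₙₐ[ℂ] (H →L[ℂ] H)).comp j
  have hρ : ∀ x : B, ρ x = π (j x) := fun x => rfl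
  set a1 : B := ⟨a', ha'⟩ with ha1
  set b1 : B := ⟨b', hb'⟩ with hb1
  have hone1 : ‖(1 : H →L[ℂ] H)‖ = 1 := norm_one
  have m1 : ‖star (π (j a1)) * π (j a1) - 1‖ ≤ 1 / 8 := by
    rw [← map_star, ← map_mul, ← map_one π, ← map_sub]
    refine (hπn _).trans ?_
    rw [norm_sub_rev]
    exact k1
  have m2 : ‖star (π (j b1)) * π (j b1) - 1‖ ≤ 1 / 8 := by
    rw [← map_star, ← map_mul, ← map_one π, ← map_sub]
    refine (hπn _).trans ?_
    rw [norm_sub_rev]
    exact k2
  have m3 : ‖star (π (j a1)) * π (j b1)‖ ≤ 1 / 8 := by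
    rw [← map_star, ← map_mul]
    refine (hπn _).trans ?_
    exact k3
  have hdense : Dense (Set.range j) := by
    intro x
    have h1 : (x : D) ∈ closure ((B.map q : NonUnitalStarSubalgebra ℂ D) : Set D) := x.2
    rw [Metric.mem_closure_iff] at h1 ⊢
    intro ε hε
    obtain ⟨y, ⟨z, hz, rfl⟩, hy⟩ := h1 ε hε
    exact ⟨j ⟨z, hz⟩, ⟨_, rfl⟩, hy⟩
  have hirr : Irred ρ := by
    refine ⟨⟨star a1 * a1, ?_⟩, ?_⟩
    · intro h0
      rw [hρ, map_mul, map_star, map_mul, map_star] at h0
      rw [h0, zero_sub, norm_neg, hone1] at m1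
      norm_num at m1
    · intro M hM hinv
      refine hπirr M hM ?_
      intro c x hx
      have hcl : IsClosed {c : C | π c x ∈ M} := by
        refine IsClosed.preimage ?_ hM
        have : Continuous fun c : C => π c := by
          exact AddMonoidHomClass.continuous_of_bound π 1 fun x => by
            rw [one_mul]; exact hπn x
        exact this.clm_apply continuous_const
      have hsubset : Set.range j ⊆ {c : C | π c x ∈ M} := by
        rintro _ ⟨y, rfl⟩
        exact hinv y x hx
      exact (hcl.closure_subset_iff.2 hsubset) (hdense c)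
  -- the compact elements form an ideal
  obtain ⟨T, hTc, hT0⟩ := rank_one (H := H)
  obtain ⟨b0, hb0⟩ := hBI H ρ hirr T hTc
  let I : Submodule ℂ C :=
    { carrier := {x | IsCompactOperator (π x)}
      add_mem' := by
        intro x y hx hy
        show IsCompactOperator (π (x + y))
        rw [map_add]
        exact hx.add hy
      zero_mem' := by
        show IsCompactOperator (π 0)
        rw [map_zero]
        exact isCompactOperator_zero
      smul_mem' := by
        intro c x hx
        show IsCompactOperator (π (c • x))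
        rw [map_smul]
        exact hx.smul c }
  have hI1 : (1 : C) ∈ I := by
    refine hJm I ?_ ?_ ?_ ⟨j b0, ?_, ?_⟩
    · intro x y hy
      show IsCompactOperator (π (x * y))
      rw [map_mul]
      exact IsCompactOperator.clm_comp hy (π x)
    · intro x y hy
      show IsCompactOperator (π (y * x))
      rw [map_mul]
      exact IsCompactOperator.comp_clm hy (π x)
    · intro x hx
      show IsCompactOperator (π x)
      rw [hπJ x hx]
      exact isCompactOperator_zero
    · show IsCompactOperator (π (j b0))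
      rw [← hρ, hb0]
      exact hTc
    · intro hmem
      apply hT0
      rw [← hb0, hρ]
      exact hπJ _ hmem
  have hfin : FiniteDimensional ℂ H := by
    have h1 : IsCompactOperator (π 1) := hI1
    rw [map_one] at h1
    exact (isCompactOperator_id_iff_finiteDimensional (𝕜 := ℂ)).1 h1
  exact hFD H (π (j a1)) (π (j b1)) (by linarith) (by linarith) (by linarith)

end Pool.Agent.N469.CO
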