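import Pool.Agent.N469.CO.Defs

/-!
# Project CONE (MP_b9f29c_an): the statements of the parts
-/

set_option autoImplicit false

open scoped CStarAlgebra ComplexOrder InnerProductSpace
open Filter Topology

namespace Pool.Agent.N469.CO

/-! ## Part 1: the obstruction -/

/-- MAX: maximal proper two-sided ideals exist -/
def SMax : Prop := ∀ (C : Type) [CStarAlgebra C] [Nontrivial C], ∃ J : Submodule ℂ C,
  (∀ a, ∀ x ∈ J, a * x ∈ J) ∧ (∀ a, ∀ x ∈ J, x * a ∈ J) ∧ (1 : C) ∉ J ∧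
  ∀ I : Submodule ℂ C, (∀ a, ∀ x ∈ I, a * x ∈ I) → (∀ a, ∀ x ∈ I, x * a ∈ I) → J ≤ I →
    (∃ x ∈ I, x ∉ J) → (1 : C) ∈ I

/-- STA: a state which vanishes on a given proper two-sided ideal -/
def SSta : Prop := ∀ (C : Type) [CStarAlgebra C] [PartialOrder C] [StarOrderedRing C]
  (J : Submodule ℂ C), (∀ a, ∀ x ∈ J, a * x ∈ J) → (∀ a, ∀ x ∈ J, x * a ∈ J) → (1 : C) ∉ J →
  ∃ φ : C →ₚ[ℂ] ℂ, φ 1 = 1 ∧ ∀ x ∈ J, φ x = 0

/-- PUR: an irreducible representation which vanishes on a given left ideal on which some state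
vanishes -/
def SPur : Prop := ∀ (C : Type) [CStarAlgebra C] [PartialOrder C] [StarOrderedRing C]
  (J : Submodule ℂ C), (∀ a, ∀ x ∈ J, a * x ∈ J) → (∀ a, ∀ x ∈ J, x * a ∈ J) →
  ∀ φ0 : C →ₚ[ℂ] ℂ, φ0 1 = 1 → (∀ x ∈ J, φ0 x = 0) →
  ∃ (H : Type) (_ : NormedAddCommGroup H) (_ : InnerProductSpace ℂ H) (_ : CompleteSpace H)
    (π : C →⋆ₐ[ℂ] (H →L[ℂ] H)), Nontrivial H ∧ (∀ x ∈ J, π x = 0) ∧
    ∀ M : Submodule ℂ H, IsClosed (M : Set H) → (∀ a, ∀ x ∈ M, π a x ∈ M) → M = ⊥ ∨ M = ⊤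

/-- FD: no two approximate isometries with approximately orthogonal ranges on a
finite-dimensional space -/
def SFD : Prop := ∀ (H : Type) [NormedAddCommGroup H] [InnerProductSpace ℂ H] [CompleteSpace H]
  [Nontrivial H] [FiniteDimensional ℂ H] (S T : H →L[ℂ] H), ‖star S * S - 1‖ ≤ 1 / 4 →
  ‖star T * T - 1‖ ≤ 1 / 4 → ‖star S * T‖ ≤ 1 / 4 → False

/-- OBS: the obstruction -/
def SObs : Prop := ∀ (A D : Type) [NonUnitalCStarAlgebra A] [CStarAlgebra D] [Nontrivial D]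
  (q : A →⋆ₙₐ[ℂ] D), Function.Surjective q → ∀ s t : D, star s * s = 1 → star t * t = 1 →
  star s * t = 0 → ¬ LocTypeI A

/-! ## Part 2: the cone -/

/-- FIN: the unitised cone is stably finite -/
def SFin : Prop := ∀ (D : Type) [CStarAlgebra D] [Nontrivial D], StablyFinite (Cone D)

/-- SEP: the unitised cone over a separable algebra is separable -/
def SSep : Prop := ∀ (D : Type) [CStarAlgebra D], TopologicalSpace.SeparableSpace D →
  TopologicalSpace.SeparableSpace (Cone D)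

/-- CPT: composition, finite sums, conjugations and *-homomorphisms are completely positive -/
def SCPT : Prop :=
  (∀ (A B C : Type) [NonUnitalCStarAlgebra A] [PartialOrder A] [StarOrderedRing A]
    [NonUnitalCStarAlgebra B] [PartialOrder B] [StarOrderedRing B]
    [NonUnitalCStarAlgebra C] [PartialOrder C] [StarOrderedRing C]
    (f : A →CP B) (g : B →CP C), ∃ h : A →CP C, ∀ x, h x = g (f x)) ∧
  (∀ (A B : Type) [NonUnitalCStarAlgebra A] [PartialOrder A] [StarOrderedRing A]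
    [NonUnitalCStarAlgebra B] [PartialOrder B] [StarOrderedRing B] (n : ℕ)
    (f : Fin n → (A →CP B)), ∃ h : A →CP B, ∀ x, h x = ∑ i, f i x) ∧
  (∀ (A B : Type) [NonUnitalCStarAlgebra A] [PartialOrder A] [StarOrderedRing A]
    [NonUnitalCStarAlgebra B] [PartialOrder B] [StarOrderedRing B]
    (f g : A →CP B), ∃ h : A →CP B, ∀ x, h x = f x + g x)

/-- BD: block-diagonal matrices (with one block of size 1 and `K` blocks of size `k`) -/
def SBD : Prop := ∀ K k : ℕ, ∃ (N : ℕ)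
  (δ0 : ℂ →CP CStarMatrix (Fin N) (Fin N) ℂ) (ρ0 : CStarMatrix (Fin N) (Fin N) ℂ →CP ℂ)
  (δ : Fin K → (CStarMatrix (Fin k) (Fin k) ℂ →CP CStarMatrix (Fin N) (Fin N) ℂ))
  (ρ : Fin K → (CStarMatrix (Fin N) (Fin N) ℂ →CP CStarMatrix (Fin k) (Fin k) ℂ)),
  (∀ T, ‖ρ0 T‖ ≤ ‖T‖) ∧ (∀ j T, ‖ρ j T‖ ≤ ‖T‖) ∧ (∀ z, ρ0 (δ0 z) = z) ∧
  (∀ j T, ρ0 (δ j T) = 0) ∧ (∀ j z, ρ j (δ0 z) = 0) ∧ (∀ j T, ρ j (δ j T) = T) ∧
  (∀ i j T, i ≠ j → ρ i (δ j T) = 0) ∧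
  ∀ (C : ℝ) (z : ℂ) (T : Fin K → CStarMatrix (Fin k) (Fin k) ℂ), ‖z‖ ≤ C → (∀ j, ‖T j‖ ≤ C) →
    ‖δ0 z + ∑ j, δ j (T j)‖ ≤ C

/-- CPH: completely positive maps into and out of the cone -/
def SCPH : Prop := ∀ (D : Type) [CStarAlgebra D] [Nontrivial D] [PartialOrder D]
  [StarOrderedRing D] [PartialOrder (Cone D)] [StarOrderedRing (Cone D)],
  (∀ h : C(unitInterval, ℝ), (∀ s, 0 ≤ h s) → h 0 = 0 →
    ∃ Θ : D →CP Cone D, ∀ x s, (Θ x).1 s = ((h s : ℝ) : ℂ) • x) ∧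
  (∀ h : C(unitInterval, ℝ), (∀ s, 0 ≤ h s) →
    ∃ Θ : ℂ →CP Cone D, ∀ z s, (Θ z).1 s = ((h s : ℝ) : ℂ) • (z • (1 : D))) ∧
  (∀ t : unitInterval, ∃ Θ : Cone D →CP D, ∀ f, Θ f = f.1 t) ∧
  (∃ Θ : Cone D →CP ℂ, ∀ f : Cone D, f.1 0 = Θ f • (1 : D))

/-- the algebraic part of the nuclearity of the cone -/
def SNC1' : Prop := ∀ (D : Type) [CStarAlgebra D] [Nontrivial D] [PartialOrder D]
  [StarOrderedRing D] [PartialOrder (Cone D)] [StarOrderedRing (Cone D)] (k : ℕ)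
  (φ : D →CP CStarMatrix (Fin k) (Fin k) ℂ) (ψ : CStarMatrix (Fin k) (Fin k) ℂ →CP D),
  (∀ x, ‖φ x‖ ≤ ‖x‖) → (∀ T, ‖ψ T‖ ≤ ‖T‖) →
  ∀ (K : ℕ) (t : Fin K → unitInterval) (h : Fin K → C(unitInterval, ℝ)) (h0 : C(unitInterval, ℝ)),
  (∀ j s, 0 ≤ h j s) → (∀ s, 0 ≤ h0 s) → (∀ s, h0 s + ∑ j, h j s = 1) → (∀ j, h j 0 = 0) →
  ∃ (N : ℕ) (Φ : Cone D →CP CStarMatrix (Fin N) (Fin N) ℂ)
    (Ψ : CStarMatrix (Fin N) (Fin N) ℂ →CP Cone D),
    (∀ f, ‖Φ f‖ ≤ ‖f‖) ∧ (∀ T, ‖Ψ T‖ ≤ ‖T‖) ∧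
    ∀ (f : Cone D) (s : unitInterval), (Ψ (Φ f)).1 s =
      ((h0 s : ℝ) : ℂ) • f.1 0 + ∑ j, ((h j s : ℝ) : ℂ) • ψ (φ (f.1 (t j)))

/-- NC1: the algebraic part of the nuclearity of the cone, from CPT, BD and CPH -/
def SNC1 : Prop := SCPT → SBD → SCPH → SNC1'

/-- the unitised cone over a nuclear unital algebra is nuclear -/
def SNuc : Prop := ∀ (D : Type) [CStarAlgebra D] [Nontrivial D] [PartialOrder D]
  [StarOrderedRing D] [PartialOrder (Cone D)] [StarOrderedRing (Cone D)],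
  Nuclear D → Nuclear (Cone D)

/-- NC2: the analytic part of the nuclearity of the cone (hat functions, uniform continuity) -/
def SNC2 : Prop := SNC1' → SNuc

/-! ## Part 3: completely positive maps -/

/-- PSI: `T ↦ ∑ T i j g_i^* g_j` is a completely positive contraction if `‖∑ g_i^* g_i‖ ≤ 1` -/
def SPsi : Prop := ∀ (A : Type) [CStarAlgebra A] [PartialOrder A] [StarOrderedRing A] (N : ℕ)
  (g : Fin N → A), ‖∑ i, star (g i) * g i‖ ≤ 1 →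
  ∃ ψ : CStarMatrix (Fin N) (Fin N) ℂ →CP A,
    (∀ T, ψ T = ∑ i, ∑ j, T i j • (star (g i) * g j)) ∧ ∀ T, ‖ψ T‖ ≤ ‖T‖

/-- PHI: the matrix coefficients of a representation with respect to an orthonormal family form
a completely positive contraction -/
def SPhi : Prop := ∀ (A : Type) [CStarAlgebra A] [PartialOrder A] [StarOrderedRing A]
  (H : Type) [NormedAddCommGroup H] [InnerProductSpace ℂ H] [CompleteSpace H]
  (π : A →⋆ₐ[ℂ] (H →L[ℂ] H)) (N : ℕ) (e : Fin N → H), Orthonormal ℂ e →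
  ∃ φ : A →CP CStarMatrix (Fin N) (Fin N) ℂ,
    (∀ x i j, φ x i j = ⟪e i, π x (e j)⟫_ℂ) ∧ ∀ x, ‖φ x‖ ≤ ‖x‖

/-! ## Part 4: the Cuntz algebra -/

/-- CZ: the Cuntz isometries exist -/
def SCz : Prop := ∃ (H : Type) (_ : NormedAddCommGroup H) (_ : InnerProductSpace ℂ H)
  (_ : CompleteSpace H), Nonempty (Cz H)

/-- W1: the recursion for the words, and multiplicativity:
`a ∘ l = 2 ^ (log a) l + (a - 2 ^ (log a))` -/
def SW1 : Prop := ∀ (H : Type) [NormedAddCommGroup H] [InnerProductSpace ℂ H] [CompleteSpace H]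
  (c : Cz H),
  (∀ (l : ℕ) (i : Fin 2), 1 ≤ l → w c (2 * l + i) = c.s i * w c l) ∧
  (∀ a : ℕ, 1 ≤ a → star (w c a) * w c a = 1) ∧
  (∀ a l : ℕ, 1 ≤ a → w c a (c.e l) = c.e (2 ^ (Nat.log 2 a) * l + (a - 2 ^ (Nat.log 2 a)))) ∧
  (∀ a l : ℕ, 1 ≤ a → 1 ≤ l →
    w c (2 ^ (Nat.log 2 a) * l + (a - 2 ^ (Nat.log 2 a))) = w c a * w c l) ∧
  (∀ n : ℕ, ∑ m ∈ Finset.range (2 ^ n), w c m * star (w c m) = (n : ℂ) • 1)

/-- the action of the adjoints of the words on the sequence -/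
def SW2' : Prop := ∀ (H : Type) [NormedAddCommGroup H] [InnerProductSpace ℂ H]
  [CompleteSpace H] (c : Cz H) (a b : ℕ), 1 ≤ a → 1 ≤ b →
  (∀ l, ⟪c.e (2 ^ (Nat.log 2 a) * l + (a - 2 ^ (Nat.log 2 a))), (w c a * star (w c b))
    (c.e (2 ^ (Nat.log 2 b) * l + (b - 2 ^ (Nat.log 2 b))))⟫_ℂ = 1) ∧
  ∀ m m' : ℕ, (¬ ∃ l, m = 2 ^ (Nat.log 2 a) * l + (a - 2 ^ (Nat.log 2 a)) ∧
      m' = 2 ^ (Nat.log 2 b) * l + (b - 2 ^ (Nat.log 2 b))) →
    ⟪c.e m, (w c a * star (w c b)) (c.e m')⟫_ℂ = 0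

/-- W2: the action of the adjoints of the words on the sequence, from W1 -/
def SW2 : Prop := SW1 → SW2'

/-- the words span a dense subspace -/
def SW3' : Prop := ∀ (H : Type) [NormedAddCommGroup H] [InnerProductSpace ℂ H]
  [CompleteSpace H] (c : Cz H), (∀ a b, w c a * star (w c b) ∈ O2 c) ∧
  ∀ x ∈ O2 c, x ∈ closure ((Submodule.span ℂ
    (Set.range fun p : ℕ × ℕ => w c p.1 * star (w c p.2)) : Submodule ℂ (H →L[ℂ] H)) :
      Set (H →L[ℂ] H))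

/-- W3: the words span a dense subspace, from W1 -/
def SW3 : Prop := SW1 → SW3'

/-- the average over the words reproduces `w a (w b)^*` in the limit -/
def SW4' : Prop := ∀ (H : Type) [NormedAddCommGroup H] [InnerProductSpace ℂ H]
  [CompleteSpace H] (c : Cz H) (a b : ℕ), Tendsto (fun n : ℕ => ((n : ℂ)⁻¹) •
    ∑ m ∈ Finset.range (2 ^ n), ∑ m' ∈ Finset.range (2 ^ n),
      ⟪c.e m, (w c a * star (w c b)) (c.e m')⟫_ℂ • (w c m * star (w c m'))) atTop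
    (𝓝 (w c a * star (w c b)))

/-- W4: the average over the words, from W1 and W2 -/
def SW4 : Prop := SW1 → SW2' → SW4'

/-- O2S: `O_2` is separable -/
def SO2S : Prop := SW3' → ∀ (H : Type) [NormedAddCommGroup H] [InnerProductSpace ℂ H]
  [CompleteSpace H] (c : Cz H), TopologicalSpace.SeparableSpace (O2 c)

/-- O2N: `O_2` is nuclear -/
def SO2N : Prop := SW1 → SW3' → SW4' → SPsi → SPhi →
  ∀ (H : Type) [NormedAddCommGroup H] [InnerProductSpace ℂ H]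
  [CompleteSpace H] (c : Cz H) [PartialOrder (O2 c)] [StarOrderedRing (O2 c)], Nuclear (O2 c)

/-! ## The result -/

/-- the result -/
def SMain : Prop :=
  (∃ (A : Type) (_ : CStarAlgebra A) (_ : PartialOrder A) (_ : StarOrderedRing A),
    TopologicalSpace.SeparableSpace A ∧ Nuclear A ∧ StablyFinite A ∧ ¬ LocTypeI A) ∧
  ∀ (A D : Type) [NonUnitalCStarAlgebra A] [CStarAlgebra D] [Nontrivial D]
    (q : A →⋆ₙₐ[ℂ] D), Function.Surjective q → ∀ s t : D, star s * s = 1 → star t * t = 1 →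
    star s * t = 0 → ¬ LocTypeI A

end Pool.Agent.N469.CO
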