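import Pool.Agent.N469.CO.Stm

/-!
# Project CONE (MP_b9f29c_an): W1, the words in the Cuntz isometries
-/

set_option autoImplicit false

open scoped CStarAlgebra ComplexOrder InnerProductSpace

namespace Pool.Agent.N469.CO

namespace W1Aux

variable {H : Type} [NormedAddCommGroup H] [InnerProductSpace ℂ H] [CompleteSpace H]

/-- append the binary digits of `a` (without the leading 1) at the end of `l` -/
def ap (a l : ℕ) : ℕ := 2 ^ (Nat.log 2 a) * l + (a - 2 ^ (Nat.log 2 a))

theorem w_zero (c : Cz H) : w c 0 = 0 := by rw [w]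

theorem w_one (c : Cz H) : w c 1 = 1 := by rw [w]

theorem w_step (c : Cz H) (l : ℕ) (i : Fin 2) (hl : 1 ≤ l) :
    w c (2 * l + i) = c.s i * w c l := by
  have hi : (i : ℕ) < 2 := i.isLt
  obtain ⟨n, hn⟩ : ∃ n, 2 * l + (i : ℕ) = n + 2 := ⟨2 * l + i - 2, by omega⟩
  rw [hn, w]
  have h1 : Fin.ofNat 2 (n + 2) = i := by
    apply Fin.ext
    show (n + 2) % 2 = i
    omega
  have h2 : (n + 2) / 2 = l := by omega
  rw [h1, h2]

theorem split (a : ℕ) (ha : 2 ≤ a) : ∃ (a' : ℕ) (i : Fin 2), 1 ≤ a' ∧ a' < a ∧ a = 2 * a' + i :=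
  ⟨a / 2, ⟨a % 2, Nat.mod_lt _ (by norm_num)⟩, by omega, by omega, by
    show a = 2 * (a / 2) + a % 2
    omega⟩

theorem log_step (a : ℕ) (i : Fin 2) (ha : 1 ≤ a) :
    Nat.log 2 (2 * a + i) = Nat.log 2 a + 1 := by
  have hi : (i : ℕ) < 2 := i.isLt
  have h1 : (2 * a + (i : ℕ)) / 2 = a := by omega
  have h2 : Nat.log 2 ((2 * a + (i : ℕ)) / 2) = Nat.log 2 (2 * a + i) - 1 :=
    Nat.log_div_base 2 (2 * a + i)
  have h3 : 1 ≤ Nat.log 2 (2 * a + (i : ℕ)) := Nat.log_pos (by norm_num) (by omega)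
  rw [h1] at h2
  omega

theorem ap_one (l : ℕ) : ap 1 l = l := by
  unfold ap
  simp

theorem ap_step (a l : ℕ) (i : Fin 2) (ha : 1 ≤ a) : ap (2 * a + i) l = 2 * ap a l + i := by
  unfold ap
  rw [log_step a i ha]
  have h1 : 2 ^ Nat.log 2 a ≤ a := Nat.pow_log_le_self 2 (by omega)
  have h2 : 2 ^ (Nat.log 2 a + 1) = 2 * 2 ^ Nat.log 2 a := by rw [pow_succ]; ring
  rw [h2]
  have h3 : 2 * 2 ^ Nat.log 2 a * l = 2 * (2 ^ Nat.log 2 a * l) := by ring
  rw [h3]
  omega

theorem ap_pos (a l : ℕ) (hl : 1 ≤ l) : 1 ≤ ap a l := by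
  unfold ap
  have h1 : 0 < 2 ^ Nat.log 2 a := by positivity
  have h2 : 0 < 2 ^ Nat.log 2 a * l := Nat.mul_pos h1 hl
  omega

theorem star_w_w (c : Cz H) (a : ℕ) (ha : 1 ≤ a) : star (w c a) * w c a = 1 := by
  induction a using Nat.strong_induction_on with
  | _ a ih =>
    rcases Nat.lt_or_ge a 2 with h | h
    · have h1 : a = 1 := by omega
      rw [h1, w_one, star_one, one_mul]
    · obtain ⟨a', i, h1, h2, h3⟩ := split a h
      have h4 : w c a = c.s i * w c a' := by rw [h3]; exact w_step c a' i h1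
      have h5 := c.iso i i
      rw [if_pos rfl] at h5
      rw [h4, star_mul, mul_assoc, ← mul_assoc (star (c.s i)), h5, one_mul]
      exact ih a' h2 h1

theorem w_act (c : Cz H) (a l : ℕ) (ha : 1 ≤ a) : w c a (c.e l) = c.e (ap a l) := by
  induction a using Nat.strong_induction_on with
  | _ a ih =>
    rcases Nat.lt_or_ge a 2 with h | h
    · have h1 : a = 1 := by omega
      rw [h1, w_one, ap_one]
      rfl
    · obtain ⟨a', i, h1, h2, h3⟩ := split a h
      have h4 : w c a = c.s i * w c a' := by rw [h3]; exact w_step c a' i h1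
      rw [h4]
      show c.s i (w c a' (c.e l)) = _
      rw [ih a' h2 h1, c.act, h3, ap_step a' l i h1]

theorem w_ap (c : Cz H) (a l : ℕ) (ha : 1 ≤ a) (hl : 1 ≤ l) : w c (ap a l) = w c a * w c l := by
  induction a using Nat.strong_induction_on with
  | _ a ih =>
    rcases Nat.lt_or_ge a 2 with h | h
    · have h1 : a = 1 := by omega
      rw [h1, w_one, ap_one, one_mul]
    · obtain ⟨a', i, h1, h2, h3⟩ := split a h
      have h4 : w c a = c.s i * w c a' := by rw [h3]; exact w_step c a' i h1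
      rw [h4, h3, ap_step a' l i h1, w_step c _ i (ap_pos a' l hl), ih a' h2 h1, mul_assoc]

theorem sum_double {M : Type*} [AddCommMonoid M] (f : ℕ → M) (n : ℕ) :
    ∑ m ∈ Finset.range (2 * n), f m = ∑ l ∈ Finset.range n, (f (2 * l) + f (2 * l + 1)) := by
  induction n with
  | zero => simp
  | succ n ih =>
    rw [Finset.sum_range_succ, ← ih, show 2 * (n + 1) = 2 * n + 1 + 1 by ring,
      Finset.sum_range_succ, Finset.sum_range_succ, add_assoc]

theorem w_sum (c : Cz H) (n : ℕ) :
    ∑ m ∈ Finset.range (2 ^ n), w c m * star (w c m) = (n : ℂ) • 1 := by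
  induction n with
  | zero =>
    rw [pow_zero, Finset.sum_range_one, w_zero, zero_mul]
    simp
  | succ n ih =>
    rw [show 2 ^ (n + 1) = 2 * 2 ^ n by rw [pow_succ]; ring, sum_double]
    have h1 : ∀ l ∈ Finset.range (2 ^ n),
        w c (2 * l) * star (w c (2 * l)) + w c (2 * l + 1) * star (w c (2 * l + 1)) =
          (c.s 0 * (w c l * star (w c l)) * star (c.s 0) +
            c.s 1 * (w c l * star (w c l)) * star (c.s 1)) + (if l = 0 then 1 else 0) := by
      intro l _
      by_cases hl : l = 0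
      · subst hl
        rw [if_pos rfl, mul_zero, w_zero, zero_add, w_one]
        simp
      · rw [if_neg hl, add_zero]
        have e0 := w_step c l 0 (by omega)
        have e1 := w_step c l 1 (by omega)
        simp only [Fin.val_zero, add_zero, Fin.val_one] at e0 e1
        rw [e0, e1, star_mul, star_mul]
        simp only [mul_assoc]
    rw [Finset.sum_congr rfl h1, Finset.sum_add_distrib, Finset.sum_add_distrib,
      ← Finset.sum_mul, ← Finset.mul_sum, ← Finset.sum_mul, ← Finset.mul_sum, ih,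
      Finset.sum_ite_eq', if_pos (Finset.mem_range.2 (by positivity))]
    rw [mul_smul_comm, mul_smul_comm, mul_one, mul_one, smul_mul_assoc, smul_mul_assoc,
      ← smul_add, c.tot]
    push_cast
    rw [add_smul, one_smul]

end W1Aux

theorem t_w1 : SW1 := by
  intro H _ _ _ c
  exact ⟨W1Aux.w_step c, W1Aux.star_w_w c, W1Aux.w_act c, W1Aux.w_ap c, W1Aux.w_sum c⟩

end Pool.Agent.N469.CO
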